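import Pool.Agent.Lib.MP_b0c2b5_co.LS.Defs

/-! Two colouring lemmas. -/

set_option autoImplicit false

namespace Pool.Agent.Lib.MP_b0c2b5_co.C4

open LS

universe u

/-- product of two colourings.

PROOF. `f v * c + g v` with `g v < c`. -/
theorem ColOn.prod {V : Type u} {r a b : V → V → Prop} {W : Set V} {c d : ℕ} (h1 : ColOn a W c)
    (h2 : ColOn b W d) (h : ∀ x ∈ W, ∀ y ∈ W, r x y → a x y ∨ b x y) : ColOn r W (c * d) := by
  obtain ⟨f, hf, hf2⟩ := h1
  obtain ⟨g, hg, hg2⟩ := h2
  refine ⟨fun v => f v * d + g v, ?_, ?_⟩
  · intro v hv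
    have h3 := hf v hv
    have h4 := hg v hv
    calc f v * d + g v < f v * d + d := by omega
      _ = (f v + 1) * d := by ring
      _ ≤ c * d := Nat.mul_le_mul_right _ h3
  · intro x hx y hy hxy heq
    have hgx := hg x hx
    have hgy := hg y hy
    have hd : 0 < d := lt_of_le_of_lt (Nat.zero_le _) hgx
    have e1 : f x = f y := by
      have h5 : (f x * d + g x) / d = f x := by
        rw [mul_comm, Nat.mul_add_div hd, Nat.div_eq_of_lt hgx, add_zero]
      have h6 : (f y * d + g y) / d = f y := by
        rw [mul_comm, Nat.mul_add_div hd, Nat.div_eq_of_lt hgy, add_zero]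
      have heq' : f x * d + g x = f y * d + g y := heq
      rw [← h5, ← h6, heq']
    have e2 : g x = g y := by
      have heq' : f x * d + g x = f y * d + g y := heq
      rw [e1] at heq'
      omega
    rcases h x hx y hy hxy with h' | h'
    · exact hf2 x hx y hy h' e1
    · exact hg2 x hx y hy h' e2

/-- A relation in which every element has at most one successor, different from it, is 3-colourable.

PROOF. For all finite sets `S` there is a colouring which is proper on `S`, by induction on the number of elements. The number of pairs `(a, b)` of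
elements of `S` with `g a b` is at most `|S|`, so some `b ∈ S` has at most one `a ∈ S` with `g a b`, and at most one `c ∈ S` with `g b c`. Colour `S \ {b}` by
induction, then give `b` a colour below 3 different from the colours of these at most two elements. -/
theorem three_col {Q : Type u} [Finite Q] (g : Q → Q → Prop) (h1 : ∀ a b b', g a b → g a b' → b = b')
    (h2 : ∀ a, ¬ g a a) : ∃ c : Q → ℕ, (∀ a, c a < 3) ∧ ∀ a b, g a b → c a ≠ c b := by
  classical
  have key : ∀ (n : ℕ) (S : Finset Q), S.card = n →
      ∃ c : Q → ℕ, (∀ a, c a < 3) ∧ ∀ a ∈ S, ∀ b ∈ S, g a b → c a ≠ c b := by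
    intro n
    induction n with
    | zero =>
      intro S hS
      rw [Finset.card_eq_zero] at hS
      subst hS
      exact ⟨fun _ => 0, fun _ => by norm_num, fun a ha => absurd ha (Finset.notMem_empty a)⟩
    | succ n ih =>
      intro S hS
      have hout : ∀ a, (S.filter (fun b => g a b)).card ≤ 1 := by
        intro a
        rw [Finset.card_le_one]
        intro x hx y hy
        exact h1 a x y (Finset.mem_filter.1 hx).2 (Finset.mem_filter.1 hy).2
      have hex : ∃ b ∈ S, (S.filter (fun a => g a b)).card ≤ 1 := by
        by_contra hcon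
        push Not at hcon
        have hsum := Finset.sum_card_bipartiteAbove_eq_sum_card_bipartiteBelow (s := S) (t := S) g
        have hA : ∑ a ∈ S, (Finset.bipartiteAbove g S a).card ≤ S.card * 1 :=
          Finset.sum_le_card_nsmul S _ 1 (fun a _ => hout a)
        have hB : S.card * 2 ≤ ∑ b ∈ S, (Finset.bipartiteBelow g S b).card :=
          Finset.card_nsmul_le_sum S _ 2 (fun b hb => hcon b hb)
        omega
      obtain ⟨b, hb, hin⟩ := hex
      obtain ⟨c, hc, hc2⟩ := ih (S.erase b) (by rw [Finset.card_erase_of_mem hb]; omega)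
      have himg : (((S.filter (fun a => g a b)) ∪ (S.filter (fun d => g b d))).image c).card < 3 := by
        refine lt_of_le_of_lt Finset.card_image_le ?_
        refine lt_of_le_of_lt (Finset.card_union_le _ _) ?_
        have := hout b
        omega
      obtain ⟨m, hm, hm'⟩ : ∃ m ∈ Finset.range 3,
          m ∉ ((S.filter (fun a => g a b)) ∪ (S.filter (fun d => g b d))).image c := by
        by_contra hcon
        push Not at hcon
        have := Finset.card_le_card (fun m hm => hcon m hm : Finset.range 3 ⊆
          ((S.filter (fun a => g a b)) ∪ (S.filter (fun d => g b d))).image c)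
        rw [Finset.card_range] at this
        omega
      have hne : ∀ a ∈ S, (g a b ∨ g b a) → m ≠ c a := by
        intro a ha hg hma
        apply hm'
        rw [Finset.mem_image]
        refine ⟨a, ?_, hma.symm⟩
        rw [Finset.mem_union, Finset.mem_filter, Finset.mem_filter]
        rcases hg with hg | hg
        · exact Or.inl ⟨ha, hg⟩
        · exact Or.inr ⟨ha, hg⟩
      refine ⟨Function.update c b m, ?_, ?_⟩
      · intro a
        by_cases hab : a = b
        · subst hab
          rw [Function.update_self]
          exact Finset.mem_range.1 hm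
        · rw [Function.update_of_ne hab]
          exact hc a
      · intro x hx y hy hxy
        by_cases hxb : x = b
        · by_cases hyb : y = b
          · subst hxb; subst hyb
            exact absurd hxy (h2 _)
          · subst hxb
            rw [Function.update_self, Function.update_of_ne hyb]
            exact hne y hy (Or.inr hxy)
        · by_cases hyb : y = b
          · subst hyb
            rw [Function.update_self, Function.update_of_ne hxb]
            exact (hne x hx (Or.inl hxy)).symm
          · rw [Function.update_of_ne hxb, Function.update_of_ne hyb]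
            exact hc2 x (Finset.mem_erase.2 ⟨hxb, hx⟩) y (Finset.mem_erase.2 ⟨hyb, hy⟩) hxy
  haveI := Fintype.ofFinite Q
  obtain ⟨c, hc, hc2⟩ := key _ Finset.univ rfl
  exact ⟨c, hc, fun a b hab => hc2 a (Finset.mem_univ a) b (Finset.mem_univ b) hab⟩

/-- Consequence for a relation `g` on a set `W` with a compatible equivalence relation.

PROOF. `Quotient` of the subtype `W` by `e`; the relation between classes: there are representatives `x`, `y` with `g x y`; `three_col`. -/
theorem three_col_quot {V : Type u} [Finite V] (g e : V → V → Prop) (W : Set V)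
    (er : ∀ x ∈ W, e x x) (es : ∀ x ∈ W, ∀ y ∈ W, e x y → e y x)
    (et : ∀ x ∈ W, ∀ y ∈ W, ∀ z ∈ W, e x y → e y z → e x z)
    (h1 : ∀ x ∈ W, ∀ x' ∈ W, ∀ y ∈ W, ∀ y' ∈ W, e x x' → g x y → g x' y' → e y y')
    (h2 : ∀ x ∈ W, ∀ y ∈ W, g x y → ¬ e x y) : ColOn g W 3 := by
  classical
  let s : Setoid W :=
    { r := fun x y => e x.1 y.1
      iseqv := ⟨fun x => er x.1 x.2, fun {x y} h => es x.1 x.2 y.1 y.2 h,
        fun {x y z} h h' => et x.1 x.2 y.1 y.2 z.1 z.2 h h'⟩ }
  let g' : Quotient s → Quotient s → Prop := fun p q =>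
    ∃ x y : W, Quotient.mk s x = p ∧ Quotient.mk s y = q ∧ g x.1 y.1
  have hg1 : ∀ a b b', g' a b → g' a b' → b = b' := by
    rintro a b b' ⟨x, y, hx, hy, hxy⟩ ⟨x', y', hx', hy', hxy'⟩
    rw [← hy, ← hy']
    refine Quotient.sound ?_
    have hxx : e x.1 x'.1 := Quotient.exact (hx.trans hx'.symm)
    exact h1 x.1 x.2 x'.1 x'.2 y.1 y.2 y'.1 y'.2 hxx hxy hxy'
  have hg2 : ∀ a, ¬ g' a a := by
    rintro a ⟨x, y, hx, hy, hxy⟩
    have hxx : e x.1 y.1 := Quotient.exact (hx.trans hy.symm)
    exact h2 x.1 x.2 y.1 y.2 hxy hxx
  obtain ⟨c, hc, hc2⟩ := three_col g' hg1 hg2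
  refine ⟨fun v => if h : v ∈ W then c (Quotient.mk s ⟨v, h⟩) else 0, ?_, ?_⟩
  · intro v hv
    simp only [hv, dif_pos]
    exact hc _
  · intro x hx y hy hxy
    simp only [hx, hy, dif_pos]
    exact hc2 _ _ ⟨⟨x, hx⟩, ⟨y, hy⟩, rfl, rfl, hxy⟩

end Pool.Agent.Lib.MP_b0c2b5_co.C4
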