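import Pool.Agent.Lib.MP_b0c2b5_co.LS.Defs

/-!
Caterpillars with four spine vertices in Hasse diagrams: definitions.

`r` is the covering relation (arcs), `lt` the order, `HO r lt` (see `LS/Defs.lean`).
-/

set_option autoImplicit false

namespace Pool.Agent.Lib.MP_b0c2b5_co.C4

open Finset LS
open scoped Classical

universe u

/-- the number of elements in exactly one of the two sets -/
noncomputable def dd {V : Type u} [DecidableEq V] (A B : Finset V) : ℝ :=
  ((A \ B).card : ℝ) + ((B \ A).card : ℝ)

/-- the two sets are nearly equal -/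
def Nr {V : Type u} [DecidableEq V] (ε : ℝ) (A B : Finset V) : Prop :=
  dd A B ≤ ε * (A.card : ℝ) ∧ dd A B ≤ ε * (B.card : ℝ)

variable {V : Type u} [Fintype V]

/-- the set of out-neighbours (children) of `u` -/
noncomputable def N (r : V → V → Prop) (u : V) : Finset V := univ.filter (fun v => r u v)

/-- a child of `u` with the largest number of children (`u` itself if `u` has no children) -/
noncomputable def star (r : V → V → Prop) (u : V) : V :=
  if h : (N r u).Nonempty then (exists_max_image (N r u) (fun v => (N r v).card) h).choose else u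

/-- `F 0 u` is the set of children of `u`, and `F (j+1) u = F j (star u)` -/
noncomputable def F (r : V → V → Prop) : ℕ → V → Finset V
  | 0, u => N r u
  | j + 1, u => F r j (star r u)

variable [DecidableEq V]

/-- the arc `u → v` is good: the children of `v` are almost the children of `star u` -/
def Good (r : V → V → Prop) (ρ : ℝ) (u v : V) : Prop :=
  r u v ∧ dd (N r v) (N r (star r u)) ≤ 2 * ρ * ((N r (star r u)).card : ℝ)

/-- the children of `u` along arcs which are not good -/
noncomputable def bad (r : V → V → Prop) (ρ : ℝ) (u : V) : Finset V :=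
  (N r u).filter (fun v => ¬ Good r ρ u v)

/-- the standing assumptions -/
structure Env (r lt : V → V → Prop) (ρ : ℝ) (m T : ℕ) : Prop where
  ho : HO r lt
  rpos : 0 < ρ
  rle : ρ ≤ 1 / 10000
  bad_le : ∀ u, T ≤ (N r (star r u)).card → (bad r ρ u).card ≤ m
  mT : 1000 * (m + 1) ≤ T

/-- the sets `F j u`, `j ≤ i`, are large -/
def Bg (r : V → V → Prop) (T i : ℕ) (u : V) : Prop := ∀ j ≤ i, 2 ^ i * (2 * T) ≤ (F r j u).card

/-- good parents of `v` -/
noncomputable def P (r : V → V → Prop) (ρ : ℝ) (T : ℕ) (v : V) : Finset V :=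
  univ.filter (fun u => Bg r T 1 u ∧ Good r ρ u v)

/-- good parents of `v` which are far from `u` -/
noncomputable def far (r : V → V → Prop) (ρ : ℝ) (T : ℕ) (v u : V) : Finset V :=
  (P r ρ T v).filter (fun u' => ¬ Nr (10 * ρ) (N r u') (N r u))

/-- rich vertices: every good parent is far from many good parents -/
def Rich (r : V → V → Prop) (ρ : ℝ) (T K : ℕ) (v : V) : Prop :=
  (P r ρ T v).Nonempty ∧ ∀ u ∈ P r ρ T v, K ≤ (far r ρ T v u).card

/-- poor vertices: almost all good parents are near to one of them -/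
def Poor (r : V → V → Prop) (ρ : ℝ) (T K : ℕ) (v : V) : Prop :=
  ∃ u ∈ P r ρ T v, (far r ρ T v u).card < K

/-- the typical good parent of a poor vertex -/
noncomputable def u0 (r : V → V → Prop) (ρ : ℝ) (T K : ℕ) (v : V) : V :=
  if h : Poor r ρ T K v then h.choose else v

/-- the exceptional good parents of a poor vertex -/
noncomputable def exc (r : V → V → Prop) (ρ : ℝ) (T K : ℕ) (v : V) : Finset V :=
  if Poor r ρ T K v then far r ρ T v (u0 r ρ T K v) else ∅

/-- vertices which are exceptional for at least one tenth of their children -/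
def XX (r : V → V → Prop) (ρ : ℝ) (T K : ℕ) : Set V :=
  {u | (N r u).card ≤ 10 * ((N r u).filter (fun z => u ∈ exc r ρ T K z)).card}

/-- the number of poor vertices in `F i u` -/
noncomputable def pc (r : V → V → Prop) (ρ : ℝ) (T K i : ℕ) (u : V) : ℕ :=
  ((F r i u).filter (fun z => Poor r ρ T K z)).card

/-- thresholds for the fraction of poor vertices -/
noncomputable def tau (ρ : ℝ) (i : ℕ) : ℝ := 1 / 4 + 20 * ρ * i

/-- thresholds for the sizes -/
def thr (T M j : ℕ) : ℕ := 2 ^ (M - j) * (2 ^ M * (2 * T))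

omit [DecidableEq V] in
theorem mem_N {r : V → V → Prop} {u v : V} : v ∈ N r u ↔ r u v := by
  simp [N]

omit [DecidableEq V] in
theorem star_mem {r : V → V → Prop} {u : V} (h : (N r u).Nonempty) : star r u ∈ N r u := by
  unfold star
  rw [dif_pos h]
  exact (exists_max_image (N r u) (fun v => (N r v).card) h).choose_spec.1

omit [DecidableEq V] in
theorem star_max {r : V → V → Prop} {u v : V} (h : r u v) :
    (N r v).card ≤ (N r (star r u)).card := by
  have hv : v ∈ N r u := mem_N.2 h
  have hne : (N r u).Nonempty := ⟨v, hv⟩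
  unfold star
  rw [dif_pos hne]
  exact (exists_max_image (N r u) (fun v => (N r v).card) hne).choose_spec.2 v hv

theorem mem_bad {r : V → V → Prop} {ρ : ℝ} {u v : V} :
    v ∈ bad r ρ u ↔ r u v ∧ ¬ Good r ρ u v := by
  simp [bad, mem_N]

theorem good_of_not_bad {r : V → V → Prop} {ρ : ℝ} {u v : V} (h : r u v) (hb : v ∉ bad r ρ u) :
    Good r ρ u v := by
  by_contra hc
  exact hb (mem_bad.2 ⟨h, hc⟩)

theorem mem_P {r : V → V → Prop} {ρ : ℝ} {T : ℕ} {u v : V} :
    u ∈ P r ρ T v ↔ Bg r T 1 u ∧ Good r ρ u v := by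
  simp [P]

theorem mem_far {r : V → V → Prop} {ρ : ℝ} {T : ℕ} {u u' v : V} :
    u' ∈ far r ρ T v u ↔ u' ∈ P r ρ T v ∧ ¬ Nr (10 * ρ) (N r u') (N r u) := by
  simp [far]

theorem rich_of_not_poor {r : V → V → Prop} {ρ : ℝ} {T K : ℕ} {v : V}
    (h : (P r ρ T v).Nonempty) (hp : ¬ Poor r ρ T K v) : Rich r ρ T K v := by
  refine ⟨h, fun u hu => ?_⟩
  by_contra hc
  exact hp ⟨u, hu, not_le.1 hc⟩

theorem u0_spec {r : V → V → Prop} {ρ : ℝ} {T K : ℕ} {v : V} (h : Poor r ρ T K v) :
    u0 r ρ T K v ∈ P r ρ T v ∧ (far r ρ T v (u0 r ρ T K v)).card < K := by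
  unfold u0
  rw [dif_pos h]
  exact h.choose_spec

theorem exc_card (r : V → V → Prop) (ρ : ℝ) (T K : ℕ) (v : V) : (exc r ρ T K v).card ≤ K := by
  unfold exc
  split_ifs with h
  · exact (u0_spec h).2.le
  · simp

/-- a good parent of a poor vertex which is not exceptional is near to the typical one -/
theorem near_u0 {r : V → V → Prop} {ρ : ℝ} {T K : ℕ} {u v : V} (hp : Poor r ρ T K v)
    (hu : u ∈ P r ρ T v) (he : u ∉ exc r ρ T K v) : Nr (10 * ρ) (N r u) (N r (u0 r ρ T K v)) := by
  by_contra hc
  apply he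
  unfold exc
  rw [if_pos hp]
  exact mem_far.2 ⟨hu, hc⟩

omit [DecidableEq V] in
theorem Bg.mono {r : V → V → Prop} {T i i' : ℕ} {u : V} (h : Bg r T i' u) (hi : i ≤ i') :
    Bg r T i u := fun j hj =>
  le_trans (Nat.mul_le_mul_right _ (Nat.pow_le_pow_right (by norm_num) hi)) (h j (hj.trans hi))

end Pool.Agent.Lib.MP_b0c2b5_co.C4
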