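import Pool.Agent.Lib.MP_b0c2b5_co.LS.FinalA

/-! An in-comb and an out-comb joined by an arc. -/

set_option autoImplicit false

namespace Pool.Agent.Lib.MP_b0c2b5_co.C4

open LS

universe u

variable {V : Type u} {r lt : V → V → Prop}

/-- `v` is the root of a comb (see `UpComb`) -/
def Root (r : V → V → Prop) (s t : ℕ) (v : V) : Prop :=
  ∃ (p : ℕ → V) (Z : ℕ → Finset V), p 0 = v ∧ (∀ i, i + 1 < s → r (p i) (p (i+1))) ∧
    (∀ i < s, (Z i).card = t ∧ ∀ z ∈ Z i, r (p i) z) ∧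
    (∀ i l, i < l → l < s → ∀ z ∈ Z i, ¬ r z (p l) ∧ ∀ z' ∈ Z l, ¬ r z z')

private lemma Embed_lt (h : HO r lt) {s : ℕ} {p : ℕ → V}
    (hp : ∀ i, i + 1 < s → r (p i) (p (i + 1))) (i : ℕ) :
    ∀ l, i < l → l < s → lt (p i) (p l) := by
  intro l
  induction l with
  | zero => intro hi; omega
  | succ l ih =>
    intro hi hl
    have h1 : lt (p l) (p (l + 1)) := h.arc _ _ (hp l hl)
    by_cases hil : i = l
    · rw [hil]; exact h1
    · exact h.trans _ _ _ (ih (by omega) (by omega)) h1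

/-- the relations between the vertices of a comb -/
private structure Embed_Cmb (r : V → V → Prop) (s t : ℕ) (p : ℕ → V) (z : ℕ → ℕ → V) : Prop where
  pp : ∀ i l, i < l → l < s → p i ≠ p l ∧ ¬ r (p l) (p i) ∧ (r (p i) (p l) ↔ l = i + 1)
  pz : ∀ i < s, ∀ m < t, r (p i) (z i m) ∧ p i ≠ z i m
  zp : ∀ i l, i < l → l < s → ∀ m < t,
    ¬ r (z i m) (p l) ∧ ¬ r (p l) (z i m) ∧ z i m ≠ p l
  pz' : ∀ i l, i < l → l < s → ∀ m < t,
    ¬ r (p i) (z l m) ∧ ¬ r (z l m) (p i) ∧ p i ≠ z l m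
  zz : ∀ i l, i < l → l < s → ∀ m < t, ∀ m' < t,
    ¬ r (z i m) (z l m') ∧ ¬ r (z l m') (z i m) ∧ z i m ≠ z l m'
  zz' : ∀ i < s, ∀ m < t, ∀ m' < t, ¬ r (z i m) (z i m')

private lemma Embed_cmb (h : HO r lt) {s t : ℕ} (ht : 1 ≤ t) {p : ℕ → V} {Z : ℕ → Finset V}
    (hp : ∀ i, i + 1 < s → r (p i) (p (i + 1)))
    (hZ : ∀ i < s, (Z i).card = t ∧ ∀ z ∈ Z i, r (p i) z)
    (hN : ∀ i l, i < l → l < s → ∀ z ∈ Z i, ¬ r z (p l) ∧ ∀ z' ∈ Z l, ¬ r z z')
    {z : ℕ → ℕ → V} (hz : ∀ i < s, ∀ m < t, z i m ∈ Z i) : Embed_Cmb r s t p z := by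
  have hl := Embed_lt h hp
  have hr : ∀ i < s, ∀ m < t, r (p i) (z i m) := fun i hi m hm => (hZ i hi).2 _ (hz i hi m hm)
  have hrl : ∀ i < s, ∀ m < t, lt (p i) (z i m) := fun i hi m hm => h.arc _ _ (hr i hi m hm)
  refine ⟨?_, ?_, ?_, ?_, ?_, ?_⟩
  · intro i l hil hls
    have h1 := hl i l hil hls
    refine ⟨?_, ?_, ?_, ?_⟩
    · intro he
      rw [he] at h1
      exact h.irr _ h1
    · intro h2
      exact h.irr _ (h.trans _ _ _ h1 (h.arc _ _ h2))
    · intro h2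
      by_contra hne
      have h3 : lt (p i) (p (i + 1)) := hl i (i + 1) (by omega) (by omega)
      have h4 : lt (p (i + 1)) (p l) := hl (i + 1) l (by omega) hls
      exact h.sf _ _ _ h2 h3 h4
    · intro he
      rw [he]
      exact hp i (by omega)
  · intro i hi m hm
    refine ⟨hr i hi m hm, fun he => ?_⟩
    have h1 := hrl i hi m hm
    rw [← he] at h1
    exact h.irr _ h1
  · intro i l hil hls m hm
    have his : i < s := by omega
    have h1 := hN i l hil hls _ (hz i his m hm)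
    refine ⟨h1.1, ?_, ?_⟩
    · intro h2
      exact h.sf _ _ _ (hr i his m hm) (hl i l hil hls) (h.arc _ _ h2)
    · intro he
      have h2 := h1.2 _ (hz l hls 0 (by omega))
      rw [he] at h2
      exact h2 (hr l hls 0 (by omega))
  · intro i l hil hls m hm
    have h1 := hl i l hil hls
    have h2 := hrl l hls m hm
    refine ⟨?_, ?_, ?_⟩
    · intro h3
      exact h.sf _ _ _ h3 h1 h2
    · intro h3
      exact h.irr _ (h.trans _ _ _ (h.trans _ _ _ h1 h2) (h.arc _ _ h3))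
    · intro he
      rw [← he] at h2
      exact h.irr _ (h.trans _ _ _ h1 h2)
  · intro i l hil hls m hm m' hm'
    have his : i < s := by omega
    have h1 := hl i l hil hls
    have h2 := hrl l hls m' hm'
    have h3 := h.trans _ _ _ h1 h2
    refine ⟨(hN i l hil hls _ (hz i his m hm)).2 _ (hz l hls m' hm'), ?_, ?_⟩
    · intro h4
      exact h.sf _ _ _ (hr i his m hm) h3 (h.arc _ _ h4)
    · intro he
      have h5 := hr i his m hm
      rw [he] at h5
      exact h.sf _ _ _ h5 h1 h2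
  · intro i hi m hm m' hm' h1
    exact h.sf _ _ _ (hr i hi m' hm') (hrl i hi m hm) (h.arc _ _ h1)

/-- A comb with its root is an induced copy of `cat s t` all of whose vertices lie above the root.

PROOF. As `embed_of_comb` and its private lemmas in `LS/FinalA.lean` (copy them), which contain the map and all
non-adjacencies. -/
theorem embed_root (h : HO r lt) {s t : ℕ} (ht : 1 ≤ t) (hs : 1 ≤ s) {v : V} (hc : Root r s t v) :
    ∃ φ : Fin s ⊕ (Fin s × Fin t) → V, Function.Injective φ ∧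
      (∀ x y, (r (φ x) (φ y) ∨ r (φ y) (φ x)) ↔ (cat s t).Adj x y) ∧
      φ (.inl ⟨0, hs⟩) = v ∧ ∀ x, x ≠ .inl ⟨0, hs⟩ → lt v (φ x) := by
  classical
  obtain ⟨p, Z, hp0, hp, hZ, hN⟩ := hc
  have hex : ∀ i, ∃ z : ℕ → V, i < s → (∀ m < t, z m ∈ Z i) ∧
      ∀ m < t, ∀ m' < t, z m = z m' → m = m' := by
    intro i
    by_cases hi : i < s
    · have hcard := (hZ i hi).1
      have hne : 0 < (Z i).card := by omega
      obtain ⟨z₀, _⟩ := Finset.card_pos.1 hne
      let e := (Z i).equivFinOfCardEq hcard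
      refine ⟨fun m => if hm : m < t then (e.symm ⟨m, hm⟩ : V) else z₀, fun _ => ⟨?_, ?_⟩⟩
      · intro m hm
        simp only [dif_pos hm]
        exact (e.symm ⟨m, hm⟩).2
      · intro m hm m' hm' he
        simp only [dif_pos hm, dif_pos hm'] at he
        have h1 := e.symm.injective (Subtype.ext he)
        exact Fin.mk.inj_iff.1 h1
    · exact ⟨fun _ => p 0, fun h => absurd h hi⟩
  choose z hz using hex
  have C := Embed_cmb h ht hp hZ hN (fun i hi => (hz i hi).1)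
  have hirr : ∀ x, ¬ r x x := fun x hx => h.irr _ (h.arc _ _ hx)
  let φ : Fin s ⊕ (Fin s × Fin t) → V := fun u => match u with
    | .inl a => p a
    | .inr l => z l.1 l.2
  have hφ : ∀ u v, u ≠ v → φ u ≠ φ v ∧ ((r (φ u) (φ v) ∨ r (φ v) (φ u)) ↔ (cat s t).Adj u v) := by
    rintro (a | l) (b | m) huv
    · show p a ≠ p b ∧ ((r (p a) (p b) ∨ r (p b) (p a)) ↔ ((a : ℕ) + 1 = b ∨ (b : ℕ) + 1 = a))
      have hne : (a : ℕ) ≠ b := fun he => huv (by rw [Fin.ext he])
      rcases lt_or_gt_of_ne hne with hlt | hlt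
      · obtain ⟨h1, h2, h3⟩ := C.pp a b hlt b.2
        refine ⟨h1, ?_, ?_⟩
        · rintro (h4 | h4)
          · exact Or.inl (h3.1 h4).symm
          · exact absurd h4 h2
        · rintro (h4 | h4)
          · exact Or.inl (h3.2 h4.symm)
          · omega
      · obtain ⟨h1, h2, h3⟩ := C.pp b a hlt a.2
        refine ⟨h1.symm, ?_, ?_⟩
        · rintro (h4 | h4)
          · exact absurd h4 h2
          · exact Or.inr (h3.1 h4).symm
        · rintro (h4 | h4)
          · omega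
          · exact Or.inr (h3.2 h4.symm)
    · show p a ≠ z m.1 m.2 ∧ ((r (p a) (z m.1 m.2) ∨ r (z m.1 m.2) (p a)) ↔ a = m.1)
      rcases lt_trichotomy (a : ℕ) (m.1 : ℕ) with hlt | heq | hlt
      · obtain ⟨h1, h2, h3⟩ := C.pz' a m.1 hlt m.1.2 m.2 m.2.2
        refine ⟨h3, ?_, ?_⟩
        · rintro (h4 | h4)
          · exact absurd h4 h1
          · exact absurd h4 h2
        · intro he
          rw [he] at hlt
          omega
      · have he : a = m.1 := Fin.ext heq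
        obtain ⟨h1, h2⟩ := C.pz m.1 m.1.2 m.2 m.2.2
        rw [he]
        exact ⟨h2, fun _ => rfl, fun _ => Or.inl h1⟩
      · obtain ⟨h1, h2, h3⟩ := C.zp m.1 a hlt a.2 m.2 m.2.2
        refine ⟨h3.symm, ?_, ?_⟩
        · rintro (h4 | h4)
          · exact absurd h4 h2
          · exact absurd h4 h1
        · intro he
          rw [he] at hlt
          omega
    · show z l.1 l.2 ≠ p b ∧ ((r (z l.1 l.2) (p b) ∨ r (p b) (z l.1 l.2)) ↔ b = l.1)
      rcases lt_trichotomy (b : ℕ) (l.1 : ℕ) with hlt | heq | hlt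
      · obtain ⟨h1, h2, h3⟩ := C.pz' b l.1 hlt l.1.2 l.2 l.2.2
        refine ⟨h3.symm, ?_, ?_⟩
        · rintro (h4 | h4)
          · exact absurd h4 h2
          · exact absurd h4 h1
        · intro he
          rw [he] at hlt
          omega
      · have he : b = l.1 := Fin.ext heq
        obtain ⟨h1, h2⟩ := C.pz l.1 l.1.2 l.2 l.2.2
        rw [he]
        exact ⟨h2.symm, fun _ => rfl, fun _ => Or.inr h1⟩
      · obtain ⟨h1, h2, h3⟩ := C.zp l.1 b hlt b.2 l.2 l.2.2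
        refine ⟨h3, ?_, ?_⟩
        · rintro (h4 | h4)
          · exact absurd h4 h1
          · exact absurd h4 h2
        · intro he
          rw [he] at hlt
          omega
    · show z l.1 l.2 ≠ z m.1 m.2 ∧ ((r (z l.1 l.2) (z m.1 m.2) ∨ r (z m.1 m.2) (z l.1 l.2)) ↔ False)
      rcases lt_trichotomy (l.1 : ℕ) (m.1 : ℕ) with hlt | heq | hlt
      · obtain ⟨h1, h2, h3⟩ := C.zz l.1 m.1 hlt m.1.2 l.2 l.2.2 m.2 m.2.2
        exact ⟨h3, fun h4 => h4.elim h1 h2, False.elim⟩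
      · have he : l.1 = m.1 := Fin.ext heq
        rw [he]
        refine ⟨fun h4 => huv ?_, fun h4 => ?_, False.elim⟩
        · have h5 := (hz m.1 m.1.2).2 l.2 l.2.2 m.2 m.2.2 h4
          have h6 : l = m := Prod.ext he (Fin.ext h5)
          rw [h6]
        · exact h4.elim (C.zz' m.1 m.1.2 l.2 l.2.2 m.2 m.2.2)
            (C.zz' m.1 m.1.2 m.2 m.2.2 l.2 l.2.2)
      · obtain ⟨h1, h2, h3⟩ := C.zz m.1 l.1 hlt l.1.2 m.2 m.2.2 l.2 l.2.2
        exact ⟨h3.symm, fun h4 => h4.elim h2 h1, False.elim⟩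
  have hlt := Embed_lt h hp
  refine ⟨φ, ?_, ?_, hp0, ?_⟩
  · intro u v huv
    by_contra hne
    exact (hφ u v hne).1 huv
  · intro u v
    by_cases huv : u = v
    · subst huv
      exact ⟨fun h1 => h1.elim (fun h2 => absurd h2 (hirr _)) (fun h2 => absurd h2 (hirr _)),
        fun h1 => absurd h1 ((cat s t).irrefl)⟩
    · exact (hφ u v huv).2
  · rintro (a | l) hx
    · show lt v (p a)
      have ha : (a : ℕ) ≠ 0 := by
        intro he
        apply hx
        congr 1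
        exact Fin.ext he
      rw [← hp0]
      exact hlt 0 a (by omega) a.2
    · show lt v (z l.1 l.2)
      have h1 : lt (p l.1) (z l.1 l.2) := h.arc _ _ (C.pz l.1 l.1.2 l.2 l.2.2).1
      by_cases h0 : (l.1 : ℕ) = 0
      · rw [h0, hp0] at h1
        rw [h0]
        exact h1
      · rw [← hp0]
        exact h.trans _ _ _ (hlt 0 l.1 (by omega) l.1.2) h1

/-- An in-comb at `p` and an out-comb at `q` joined by an arc `p → q` form a caterpillar.

PROOF. `φ` from `embed_root` for `rev r` (`h.flip`), root `p`, all other vertices below `p`; `ψ` for `r`, root `q`, all other vertices above `q`. A vertex `x` of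
the first copy and a vertex `y` of the second: `lt x y` or `x = p`, `y = q`, so `x ≠ y` and not `r y x`, and `r x y` only if `x = p` and `y = q`: if `x ≠ p` then `lt x p`, `lt p y` (from `p → q`), if
`y ≠ q` then `lt x q`, `lt q y`: against `sf`. The map from `cat (a + b) t`: spine vertex `i < a` to `φ (inl (a - 1 - i))`, `i ≥ a` to `ψ (inl (i - a))`, and the same for the leaves. -/
theorem embed_double (h : HO r lt) {a b t : ℕ} (ht : 1 ≤ t) (ha : 1 ≤ a) (hb : 1 ≤ b)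
    (G : SimpleGraph V) (hG : ∀ x y, G.Adj x y ↔ r x y ∨ r y x) {p q : V} (hpq : r p q)
    (hin : Root (rev r) a t p) (hout : Root r b t q) : Nonempty (cat (a + b) t ↪g G) := by
  obtain ⟨φ, hφi, hφa, hφ0, hφl⟩ := embed_root h.flip ht ha hin
  obtain ⟨ψ, hψi, hψa, hψ0, hψl⟩ := embed_root h ht hb hout
  have hlpq : lt p q := h.arc _ _ hpq
  have hup : ∀ x, x = .inl ⟨0, ha⟩ ∨ lt (φ x) p := fun x => by
    by_cases hx : x = .inl ⟨0, ha⟩
    · exact Or.inl hx
    · exact Or.inr (hφl x hx)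
  have hdn : ∀ y, y = .inl ⟨0, hb⟩ ∨ lt q (ψ y) := fun y => by
    by_cases hy : y = .inl ⟨0, hb⟩
    · exact Or.inl hy
    · exact Or.inr (hψl y hy)
  have hxq : ∀ x, lt (φ x) q := fun x => by
    rcases hup x with hx | hx
    · rw [hx, hφ0]; exact hlpq
    · exact h.trans _ _ _ hx hlpq
  have hpy : ∀ y, lt p (ψ y) := fun y => by
    rcases hdn y with hy | hy
    · rw [hy, hψ0]; exact hlpq
    · exact h.trans _ _ _ hlpq hy
  have hxy : ∀ x y, lt (φ x) (ψ y) := fun x y => by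
    rcases hup x with hx | hx
    · rw [hx, hφ0]; exact hpy y
    · exact h.trans _ _ _ hx (hpy y)
  have hcr : ∀ x y, (r (φ x) (ψ y) ∨ r (ψ y) (φ x)) ↔
      (x = .inl ⟨0, ha⟩ ∧ y = .inl ⟨0, hb⟩) := by
    intro x y
    constructor
    · rintro (h1 | h1)
      · constructor
        · rcases hup x with hx | hx
          · exact hx
          · exact absurd (hpy y) (h.sf _ _ _ h1 hx)
        · rcases hdn y with hy | hy
          · exact hy
          · exact absurd hy (h.sf _ _ _ h1 (hxq x))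
      · exact absurd (h.trans _ _ _ (hxy x y) (h.arc _ _ h1)) (h.irr _)
    · rintro ⟨h1, h2⟩
      rw [h1, h2, hφ0, hψ0]
      exact Or.inl hpq
  obtain ⟨Φ, Φ1, Φ2, Φ3, Φ4⟩ : ∃ Φ : Fin (a + b) ⊕ (Fin (a + b) × Fin t) → V,
      (∀ (i : Fin (a + b)) (_ : (i : ℕ) < a), Φ (.inl i) = φ (.inl ⟨a - 1 - i, by omega⟩)) ∧
      (∀ (i : Fin (a + b)) (_ : ¬ (i : ℕ) < a), Φ (.inl i) = ψ (.inl ⟨i - a, by omega⟩)) ∧
      (∀ (l : Fin (a + b) × Fin t) (_ : (l.1 : ℕ) < a),
        Φ (.inr l) = φ (.inr (⟨a - 1 - l.1, by omega⟩, l.2))) ∧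
      (∀ (l : Fin (a + b) × Fin t) (_ : ¬ (l.1 : ℕ) < a),
        Φ (.inr l) = ψ (.inr (⟨l.1 - a, by omega⟩, l.2))) :=
    ⟨fun u => match u with
      | .inl i => if hi : (i : ℕ) < a then φ (.inl ⟨a - 1 - i, by omega⟩)
          else ψ (.inl ⟨i - a, by omega⟩)
      | .inr l => if hl : (l.1 : ℕ) < a then φ (.inr (⟨a - 1 - l.1, by omega⟩, l.2))
          else ψ (.inr (⟨l.1 - a, by omega⟩, l.2)),
      fun _ hi => dif_pos hi, fun _ hi => dif_neg hi, fun _ hl => dif_pos hl,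
      fun _ hl => dif_neg hl⟩
  have sφ : ∀ x y u v, Φ u = φ x → Φ v = φ y → x ≠ y →
      ((cat a t).Adj x y ↔ (cat (a + b) t).Adj u v) →
      Φ u ≠ Φ v ∧ (G.Adj (Φ u) (Φ v) ↔ (cat (a + b) t).Adj u v) := by
    intro x y u v hu hv hne hadj
    rw [hu, hv, hG, ← hadj, ← hφa x y]
    exact ⟨fun he => hne (hφi he), or_comm⟩
  have sψ : ∀ x y u v, Φ u = ψ x → Φ v = ψ y → x ≠ y →
      ((cat b t).Adj x y ↔ (cat (a + b) t).Adj u v) →
      Φ u ≠ Φ v ∧ (G.Adj (Φ u) (Φ v) ↔ (cat (a + b) t).Adj u v) := by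
    intro x y u v hu hv hne hadj
    rw [hu, hv, hG, ← hadj, ← hψa x y]
    exact ⟨fun he => hne (hψi he), Iff.rfl⟩
  have sc : ∀ x y u v, Φ u = φ x → Φ v = ψ y →
      ((x = .inl ⟨0, ha⟩ ∧ y = .inl ⟨0, hb⟩) ↔ (cat (a + b) t).Adj u v) →
      Φ u ≠ Φ v ∧ (G.Adj (Φ u) (Φ v) ↔ (cat (a + b) t).Adj u v) := by
    intro x y u v hu hv hadj
    rw [hu, hv, hG, ← hadj, hcr x y]
    refine ⟨fun he => ?_, Iff.rfl⟩
    have h1 := hxy x y
    rw [he] at h1
    exact h.irr _ h1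
  have sym : ∀ u v, (Φ u ≠ Φ v ∧ (G.Adj (Φ u) (Φ v) ↔ (cat (a + b) t).Adj u v)) →
      (Φ v ≠ Φ u ∧ (G.Adj (Φ v) (Φ u) ↔ (cat (a + b) t).Adj v u)) := by
    rintro u v ⟨h1, h2⟩
    exact ⟨h1.symm, by rw [G.adj_comm, h2, (cat (a + b) t).adj_comm]⟩
  have hΦ : ∀ u v, u ≠ v → Φ u ≠ Φ v ∧ (G.Adj (Φ u) (Φ v) ↔ (cat (a + b) t).Adj u v) := by
    rintro (i | l) (j | k) huv
    · have hne : (i : ℕ) ≠ j := fun he => huv (by rw [Fin.ext he])
      by_cases hi : (i : ℕ) < a <;> by_cases hj : (j : ℕ) < a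
      · refine sφ _ _ _ _ (Φ1 i hi) (Φ1 j hj) ?_ ?_
        · intro he
          have h1 := Fin.mk.inj_iff.1 (Sum.inl.inj he)
          omega
        · show (a - 1 - (i : ℕ) + 1 = a - 1 - j ∨ a - 1 - (j : ℕ) + 1 = a - 1 - i) ↔
            ((i : ℕ) + 1 = j ∨ (j : ℕ) + 1 = i)
          omega
      · refine sc _ _ _ _ (Φ1 i hi) (Φ2 j hj) ?_
        show _ ↔ ((i : ℕ) + 1 = j ∨ (j : ℕ) + 1 = i)
        rw [Sum.inl.injEq, Sum.inl.injEq, Fin.mk.injEq, Fin.mk.injEq]
        omega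
      · refine sym _ _ (sc _ _ _ _ (Φ1 j hj) (Φ2 i hi) ?_)
        show _ ↔ ((j : ℕ) + 1 = i ∨ (i : ℕ) + 1 = j)
        rw [Sum.inl.injEq, Sum.inl.injEq, Fin.mk.injEq, Fin.mk.injEq]
        omega
      · refine sψ _ _ _ _ (Φ2 i hi) (Φ2 j hj) ?_ ?_
        · intro he
          have h1 := Fin.mk.inj_iff.1 (Sum.inl.inj he)
          omega
        · show ((i : ℕ) - a + 1 = j - a ∨ (j : ℕ) - a + 1 = i - a) ↔
            ((i : ℕ) + 1 = j ∨ (j : ℕ) + 1 = i)
          omega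
    · have hA : (cat (a + b) t).Adj (.inl i) (.inr k) ↔ (i : ℕ) = k.1 := by
        show i = k.1 ↔ _
        rw [Fin.ext_iff]
      by_cases hi : (i : ℕ) < a <;> by_cases hk : (k.1 : ℕ) < a
      · refine sφ _ _ _ _ (Φ1 i hi) (Φ3 k hk) (by simp) ?_
        rw [hA]
        show (⟨a - 1 - i, _⟩ : Fin a) = ⟨a - 1 - k.1, _⟩ ↔ _
        rw [Fin.mk.injEq]
        omega
      · refine sc _ _ _ _ (Φ1 i hi) (Φ4 k hk) ?_
        rw [hA]
        constructor
        · rintro ⟨_, h2⟩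
          exact absurd h2 (by simp)
        · intro h1
          omega
      · refine sym _ _ (sc _ _ _ _ (Φ3 k hk) (Φ2 i hi) ?_)
        rw [(cat (a + b) t).adj_comm, hA]
        constructor
        · rintro ⟨h1, _⟩
          exact absurd h1 (by simp)
        · intro h1
          omega
      · refine sψ _ _ _ _ (Φ2 i hi) (Φ4 k hk) (by simp) ?_
        rw [hA]
        show (⟨i - a, _⟩ : Fin b) = ⟨k.1 - a, _⟩ ↔ _
        rw [Fin.mk.injEq]
        omega
    · have hA : (cat (a + b) t).Adj (.inr l) (.inl j) ↔ (j : ℕ) = l.1 := by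
        show j = l.1 ↔ _
        rw [Fin.ext_iff]
      by_cases hl : (l.1 : ℕ) < a <;> by_cases hj : (j : ℕ) < a
      · refine sφ _ _ _ _ (Φ3 l hl) (Φ1 j hj) (by simp) ?_
        rw [hA]
        show (⟨a - 1 - j, _⟩ : Fin a) = ⟨a - 1 - l.1, _⟩ ↔ _
        rw [Fin.mk.injEq]
        omega
      · refine sc _ _ _ _ (Φ3 l hl) (Φ2 j hj) ?_
        rw [hA]
        constructor
        · rintro ⟨h1, _⟩
          exact absurd h1 (by simp)
        · intro h1
          omega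
      · refine sym _ _ (sc _ _ _ _ (Φ1 j hj) (Φ4 l hl) ?_)
        rw [(cat (a + b) t).adj_comm, hA]
        constructor
        · rintro ⟨_, h2⟩
          exact absurd h2 (by simp)
        · intro h1
          omega
      · refine sψ _ _ _ _ (Φ4 l hl) (Φ2 j hj) (by simp) ?_
        rw [hA]
        show (⟨j - a, _⟩ : Fin b) = ⟨l.1 - a, _⟩ ↔ _
        rw [Fin.mk.injEq]
        omega
    · have hA : (cat (a + b) t).Adj (.inr l) (.inr k) ↔ False := Iff.rfl
      by_cases hl : (l.1 : ℕ) < a <;> by_cases hk : (k.1 : ℕ) < a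
      · refine sφ _ _ _ _ (Φ3 l hl) (Φ3 k hk) ?_ Iff.rfl
        intro he
        have h1 := Prod.mk_inj.1 (Sum.inr.inj he)
        have h2 := Fin.mk.inj_iff.1 h1.1
        apply huv
        rw [Prod.ext (Fin.ext (by omega)) h1.2]
      · refine sc _ _ _ _ (Φ3 l hl) (Φ4 k hk) ?_
        rw [hA]
        constructor
        · rintro ⟨h1, _⟩
          exact absurd h1 (by simp)
        · exact False.elim
      · refine sym _ _ (sc _ _ _ _ (Φ3 k hk) (Φ4 l hl) ?_)
        rw [(cat (a + b) t).adj_comm, hA]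
        constructor
        · rintro ⟨h1, _⟩
          exact absurd h1 (by simp)
        · exact False.elim
      · refine sψ _ _ _ _ (Φ4 l hl) (Φ4 k hk) ?_ Iff.rfl
        intro he
        have h1 := Prod.mk_inj.1 (Sum.inr.inj he)
        have h2 := Fin.mk.inj_iff.1 h1.1
        apply huv
        rw [Prod.ext (Fin.ext (by omega)) h1.2]
  refine ⟨⟨⟨Φ, ?_⟩, ?_⟩⟩
  · intro u v huv
    by_contra hne
    exact (hΦ u v hne).1 huv
  · intro u v
    by_cases huv : u = v
    · subst huv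
      exact ⟨fun h1 => absurd h1 (G.irrefl), fun h1 => absurd h1 ((cat (a + b) t).irrefl)⟩
    · exact (hΦ u v huv).2

/-- the restriction of a relation to a set -/
def res (r : V → V → Prop) (W : Set V) : V → V → Prop := fun x y => x ∈ W ∧ y ∈ W ∧ r x y

theorem HO.res (h : HO r lt) (W : Set V) : HO (res r W) lt where
  irr := h.irr
  trans := h.trans
  arc x y hxy := h.arc x y hxy.2.2
  sf x y z hxy := h.sf x y z hxy.2.2

theorem rev_res (r : V → V → Prop) (W : Set V) : rev (res r W) = res (rev r) W := by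
  funext x y
  simp only [rev, C4.res, eq_iff_iff]
  tauto

/-- PROOF. All vertices of the comb lie in `W` (`1 ≤ t`). -/
theorem Root.of_res {s t : ℕ} {W : Set V} {v : V} (ht : 1 ≤ t) (h : Root (res r W) s t v) :
    Root r s t v := by
  obtain ⟨p, Z, h0, h1, h2, h3⟩ := h
  have hpW : ∀ i < s, p i ∈ W := by
    intro i hi
    obtain ⟨hc, hz⟩ := h2 i hi
    obtain ⟨z, hzm⟩ := Finset.card_pos.1 (by omega : 0 < (Z i).card)
    exact (hz z hzm).1
  refine ⟨p, Z, h0, fun i hi => (h1 i hi).2.2,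
    fun i hi => ⟨(h2 i hi).1, fun z hz => ((h2 i hi).2 z hz).2.2⟩, ?_⟩
  intro i l hil hl z hz
  have hzW : z ∈ W := ((h2 i (by omega)).2 z hz).2.1
  obtain ⟨h4, h5⟩ := h3 i l hil hl z hz
  refine ⟨fun h6 => h4 ⟨hzW, hpW l hl, h6⟩, fun z' hz' h6 => ?_⟩
  exact h5 z' hz' ⟨hzW, ((h2 l hl).2 z' hz').2.1, h6⟩

/-- PROOF. `ColOn (res r W) univ` and `ColOn r W` are the same for the arcs in `W`. -/
theorem colOn_of_res {W : Set V} {c : ℕ} (h : ColOn (res r W) Set.univ c) : ColOn r W c := by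
  obtain ⟨f, h1, h2⟩ := h
  exact ⟨f, fun v _ => h1 v (Set.mem_univ v), fun x hx y hy hxy =>
    h2 x (Set.mem_univ x) y (Set.mem_univ y) ⟨hx, hy, hxy⟩⟩

theorem exists_root {s t : ℕ} (h : UpComb r s t) : ∃ v, Root r s t v := by
  obtain ⟨p, Z, h1, h2, h3⟩ := h
  exact ⟨p 0, p, Z, rfl, h1, h2, h3⟩

/-- the root of a comb of `res r W` is in `W`. PROOF: `r (p 0) z` for a leaf `z`. -/
theorem Root.mem {s t : ℕ} {W : Set V} {v : V} (ht : 1 ≤ t) (hs : 1 ≤ s)
    (h : Root (res r W) s t v) : v ∈ W := by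
  obtain ⟨p, Z, h0, h1, h2, h3⟩ := h
  obtain ⟨hc, hz⟩ := h2 0 (by omega)
  obtain ⟨z, hzm⟩ := Finset.card_pos.1 (by omega : 0 < (Z 0).card)
  rw [← h0]
  exact (hz z hzm).1

end Pool.Agent.Lib.MP_b0c2b5_co.C4
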