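import Pool.Agent.Lib.MP_b0c2b5_co.C4.Small

/-! The vertices which are exceptional for many of their children. -/

set_option autoImplicit false

namespace Pool.Agent.Lib.MP_b0c2b5_co.C4

open Finset LS
open scoped Classical

universe u

variable {V : Type u} [Fintype V] [DecidableEq V] {r lt : V → V → Prop} {ρ : ℝ} {m T : ℕ}

/-- A vertex has few good children in `XX`.

PROOF. Let `G` be this set, `A = N r (star r u)`, not empty. For `v ∈ G`: at least `|N r v| / 10` elements `z` of `N r v` have `v ∈ exc r ρ T K z`, so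
(`card_filter_le_dd`, `Good`, `Nr.card_ge` for `good_nr`) at least `((1 - 3 ρ) / 10 - 2 ρ) |A| ≥ |A| / 20` elements of `A`. For `z ∈ A` at most `K` vertices `v` are in `exc r ρ T K z`
(`exc_card`). Double counting (`Finset.sum_comm` or `Finset.sum_card_bipartiteAbove_eq_sum_card_bipartiteBelow`): `|G| |A| / 20 ≤ K |A|`. -/
theorem few_XX (E : Env r lt ρ m T) (K : ℕ) {u : V} (hu : Bg r T 1 u) :
    ((N r u).filter (fun v => Good r ρ u v ∧ v ∈ XX r ρ T K)).card ≤ 20 * K := by
  set G := (N r u).filter (fun v => Good r ρ u v ∧ v ∈ XX r ρ T K) with hG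
  set A := N r (star r u) with hA
  have hA1 : 2 ^ 1 * (2 * T) ≤ A.card := hu 1 le_rfl
  have hT : 1000 ≤ T := by
    have := E.mT
    omega
  have hA0 : (0 : ℝ) < A.card := by
    have : 0 < A.card := by omega
    exact_mod_cast this
  have key : ∀ v ∈ G, (A.card : ℝ) / 20 ≤ ((A.filter (fun z => v ∈ exc r ρ T K z)).card : ℝ) := by
    intro v hv
    rw [hG, mem_filter] at hv
    obtain ⟨_, hg, hX⟩ := hv
    have h1 : (N r v).card ≤ 10 * ((N r v).filter (fun z => v ∈ exc r ρ T K z)).card := hX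
    have h1' : ((N r v).card : ℝ) ≤
        10 * (((N r v).filter (fun z => v ∈ exc r ρ T K z)).card : ℝ) := by exact_mod_cast h1
    have h2 := card_filter_le_dd (fun z => v ∈ exc r ρ T K z) (N r v) A
    have h3 : dd (N r v) A ≤ 2 * ρ * (A.card : ℝ) := hg.2
    have h4 : (1 - 3 * ρ) * (A.card : ℝ) ≤ ((N r v).card : ℝ) := (good_nr E hg).card_ge
    have h5 : ρ * (A.card : ℝ) ≤ 1 / 10000 * (A.card : ℝ) :=
      mul_le_mul_of_nonneg_right E.rle hA0.le
    linarith
  have dc := Finset.sum_card_bipartiteAbove_eq_sum_card_bipartiteBelow (s := G) (t := A)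
    (fun v z => v ∈ exc r ρ T K z)
  have h6 : ∑ z ∈ A, (G.bipartiteBelow (fun v z => v ∈ exc r ρ T K z) z).card ≤ A.card * K := by
    rw [← smul_eq_mul]
    refine Finset.sum_le_card_nsmul _ _ _ ?_
    intro z _
    refine le_trans (card_le_card ?_) (exc_card r ρ T K z)
    intro v hv
    rw [Finset.mem_bipartiteBelow] at hv
    exact hv.2
  have h7 : (G.card : ℝ) * (A.card / 20) ≤
      ∑ v ∈ G, ((A.bipartiteAbove (fun v z => v ∈ exc r ρ T K z) v).card : ℝ) := by
    rw [← nsmul_eq_mul]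
    refine Finset.card_nsmul_le_sum _ _ _ ?_
    intro v hv
    exact key v hv
  have h8 : ∑ v ∈ G, ((A.bipartiteAbove (fun v z => v ∈ exc r ρ T K z) v).card : ℝ) ≤
      (A.card : ℝ) * K := by
    have h9 := dc.trans_le h6
    exact_mod_cast h9
  have h10 : (G.card : ℝ) * A.card ≤ (20 * K : ℝ) * A.card := by linarith
  have h11 : (G.card : ℝ) ≤ 20 * K := le_of_mul_le_mul_right h10 hA0
  exact_mod_cast h11

/-- PROOF. `colOn_of_outdeg` with `S` = the set of `few_XX` and `bad r ρ v` (`Bg.bad_le`). -/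
theorem XX_col (E : Env r lt ρ m T) (K : ℕ) :
    ColOn r {u | Bg r T 1 u ∧ u ∈ XX r ρ T K} (20 * K + m + 1) := by
  refine colOn_of_outdeg E.ho _ (20 * K + m) ?_
  intro v hv
  refine ⟨(N r v).filter (fun w => Good r ρ v w ∧ w ∈ XX r ρ T K) ∪ bad r ρ v, ?_, ?_⟩
  · exact (card_union_le _ _).trans (Nat.add_le_add (few_XX E K hv.1) (hv.1.bad_le E))
  · intro w hw hr
    by_cases hg : Good r ρ v w
    · exact mem_union_left _ (mem_filter.2 ⟨mem_N.2 hr, hg, hw.2⟩)
    · exact mem_union_right _ (mem_bad.2 ⟨hr, hg⟩)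

end Pool.Agent.Lib.MP_b0c2b5_co.C4
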