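import Pool.Agent.Lib.MP_b0c2b5_co.C4.Rich

/-! The first level with many poor vertices. -/

set_option autoImplicit false

namespace Pool.Agent.Lib.MP_b0c2b5_co.C4

open Finset LS
open scoped Classical

universe u

variable {V : Type u} [Fintype V] [DecidableEq V] {r lt : V → V → Prop} {ρ : ℝ} {m T : ℕ}

/-- the invariant of the descent along rich vertices -/
def Inv (r : V → V → Prop) (ρ : ℝ) (T s : ℕ) (u : V) (j : ℕ) (z : V) : Prop :=
  Bg r T (s + 1 - j) z ∧ ∀ i, i + j ≤ s + 1 → Nr (10 * ρ * j) (F r i z) (F r (i + j) u)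

/-- One step of the descent.

PROOF. `A = F r 0 z = N r z`, `|A| ≥ 4 T`. By the invariant (`i = 0`), `card_filter_le_dd` and `hk` the number of poor elements of `A` is at most
`pc r ρ T K j u + dd ≤ tau ρ j |F r j u| + 10 ρ j |A| ≤ 0.4 |A|` (`tau ρ j ≤ 0.3`, `10 ρ j ≤ 0.01`, `|F r j u| ≤ (1 + 10 ρ j) |A|`), and `|bad r ρ z| ≤ m ≤ 0.001 |A|`, so some `z' ∈ A` is neither poor nor in
`bad r ρ z`. `Bg r T (s + 1 - (j+1)) z'` is `Bg.step`. For `i + (j+1) ≤ s + 1`: `good_F` with `k = s - j` (the sizes come from `Bg r T (s+1-j) z`) gives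
`Nr (5 * ρ) (F r i z') (F r (i+1) z)`, and the invariant gives `Nr (10 * ρ * j) (F r (i+1) z) (F r (i+1+j) u)`; `Nr.trans`. -/
theorem inv_step (E : Env r lt ρ m T) {s K : ℕ} (hs : ρ * s ≤ 1 / 1000) {u : V}
    (hk : ∀ i < s, (pc r ρ T K i u : ℝ) < tau ρ i * (F r i u).card) {j : ℕ} (hj : j < s) {z : V}
    (hz : Inv r ρ T s u j z) :
    ∃ z', Good r ρ z z' ∧ ¬ Poor r ρ T K z' ∧ Inv r ρ T s u (j + 1) z' := by
  have hρ := E.rpos
  have hρ' := E.rle
  obtain ⟨hB, hN⟩ := hz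
  have hjs : ρ * j ≤ 1 / 1000 := by
    have h1 : (j : ℝ) ≤ s := by exact_mod_cast hj.le
    exact (mul_le_mul_of_nonneg_left h1 hρ.le).trans hs
  have hj0 : 0 ≤ ρ * j := mul_nonneg hρ.le (Nat.cast_nonneg _)
  -- sizes
  have hsize : ∀ l ≤ s + 1 - j, 2 * T ≤ (F r l z).card := fun l hl =>
    le_trans (Nat.le_mul_of_pos_left _ (by positivity)) (hB l hl)
  have hT := E.mT
  have hbad : (bad r ρ z).card ≤ m := Bg.bad_le E (hB.mono (by omega))
  have hA0 : 2 * T ≤ (F r 0 z).card := hsize 0 (by omega)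
  -- the poor elements
  have h0 := hN 0 (by omega)
  rw [zero_add] at h0
  have h1 := card_filter_le_dd (fun y => Poor r ρ T K y) (F r 0 z) (F r j u)
  have h2 : (((F r j u).filter (fun y => Poor r ρ T K y)).card : ℝ) < tau ρ j * (F r j u).card :=
    hk j hj
  have h3 := h0.1
  have h4 := h0.symm.card_le
  have hAr : (0 : ℝ) ≤ (F r 0 z).card := Nat.cast_nonneg _
  have hFr : (0 : ℝ) ≤ (F r j u).card := Nat.cast_nonneg _
  have h5 : tau ρ j * (F r j u).card ≤ 27 / 100 * (F r j u).card := by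
    apply mul_le_mul_of_nonneg_right _ hFr
    unfold tau
    linarith
  have h6 : (1 + 10 * ρ * j) * (F r 0 z).card ≤ 101 / 100 * ((F r 0 z).card : ℝ) := by
    apply mul_le_mul_of_nonneg_right _ hAr
    linarith
  have h7 : 10 * ρ * j * (F r 0 z).card ≤ 1 / 100 * ((F r 0 z).card : ℝ) := by
    apply mul_le_mul_of_nonneg_right _ hAr
    linarith
  have h8 : (((F r 0 z).filter (fun y => Poor r ρ T K y)).card : ℝ) ≤ 3 / 10 * (F r 0 z).card := by
    linarith
  have h9 : ((bad r ρ z).card : ℝ) < 1 / 10 * (F r 0 z).card := by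
    have e1 : ((bad r ρ z).card : ℝ) ≤ m := by exact_mod_cast hbad
    have e2 : (1000 * (m + 1) : ℝ) ≤ T := by exact_mod_cast hT
    have e3 : (2 * T : ℝ) ≤ (F r 0 z).card := by exact_mod_cast hA0
    have e4 : (0 : ℝ) ≤ m := Nat.cast_nonneg _
    linarith
  have hlt : (((F r 0 z).filter (fun y => Poor r ρ T K y)) ∪ bad r ρ z).card
      < (F r 0 z).card := by
    have e1 := card_union_le ((F r 0 z).filter (fun y => Poor r ρ T K y)) (bad r ρ z)
    have e2 : ((((F r 0 z).filter (fun y => Poor r ρ T K y)) ∪ bad r ρ z).card : ℝ)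
        ≤ ((F r 0 z).filter (fun y => Poor r ρ T K y)).card + (bad r ρ z).card := by
      exact_mod_cast e1
    have e3 : ((((F r 0 z).filter (fun y => Poor r ρ T K y)) ∪ bad r ρ z).card : ℝ)
        < (F r 0 z).card := by linarith
    exact_mod_cast e3
  obtain ⟨z', hz', hz''⟩ := exists_mem_notMem_of_card_lt_card hlt
  rw [mem_union, not_or, mem_filter] at hz''
  have hpoor : ¬ Poor r ρ T K z' := fun hc => hz''.1 ⟨hz', hc⟩
  have hg : Good r ρ z z' := good_of_not_bad (mem_N.1 hz') hz''.2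
  refine ⟨z', hg, hpoor, ?_, ?_⟩
  · have e1 : s + 1 - (j + 1) = s - j := by omega
    rw [e1]
    apply Bg.step E _ hg
    have e2 : s - j + 1 = s + 1 - j := by omega
    rw [e2]
    exact hB
  · intro i hi
    have e1 : Nr (5 * ρ) (F r i z') (F r (i + 1) z) :=
      good_F E (k := s - j) hg (fun l _ hl => hsize l (by omega)) i (by omega)
    have e2 := hN (i + 1) (by omega)
    have e3 : i + 1 + j = i + (j + 1) := by omega
    rw [e3] at e2
    refine e1.trans e2 (by linarith) (by linarith) ?_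
    push_cast
    have e4 : ρ * (ρ * j) ≤ ρ * (1 / 1000) := mul_le_mul_of_nonneg_left hjs hρ.le
    nlinarith

/-- There is a level with many poor vertices.

PROOF. Otherwise `inv_step` gives `z 0 = u`, `z 1`, ..., `z s` (a sequence by recursion with choice; `Inv r ρ T s u 0 u` holds with `dd A A = 0`), all `z (j+1)` not poor and `Good r ρ (z j) (z (j+1))`,
`Bg r T 1 (z j)` for `j ≤ s - 1 ` (indeed for `j ≤ s`). Put `q i = z (s - i)`: `q (i+1) ∈ P r ρ T (q i)` for `i < s`, so `P r ρ T (q i)` is not empty and `q i` is rich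
(`rich_of_not_poor`). `rich_path` contradicts `hC`. -/
theorem exists_kappa (E : Env r lt ρ m T) {s t K : ℕ} (hs : ρ * s ≤ 1 / 1000)
    (hK : (s + s * t) * m + t ≤ K) (hC : ¬ UpComb (rev r) s t) {u : V} (hu : Bg r T (s + 1) u) :
    ∃ i < s, tau ρ i * (F r i u).card ≤ (pc r ρ T K i u : ℝ) := by
  by_contra hcon
  push Not at hcon
  have hex : ∀ (j : ℕ) (z : V), ∃ z', (j < s ∧ Inv r ρ T s u j z) →
      (Good r ρ z z' ∧ ¬ Poor r ρ T K z' ∧ Inv r ρ T s u (j + 1) z') := by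
    intro j z
    by_cases h : j < s ∧ Inv r ρ T s u j z
    · obtain ⟨z', hz'⟩ := inv_step E hs hcon h.1 h.2
      exact ⟨z', fun _ => hz'⟩
    · exact ⟨z, fun h' => absurd h' h⟩
  choose nx hnx using hex
  let z : ℕ → V := fun n => Nat.rec u (fun j y => nx j y) n
  have hz1 : ∀ j, z (j + 1) = nx j (z j) := fun j => rfl
  have h0 : Inv r ρ T s u 0 u := by
    refine ⟨by simpa using hu, fun i _ => ?_⟩
    have e : dd (F r i u) (F r i u) = 0 := by simp [dd]
    rw [add_zero]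
    unfold Nr
    rw [e]
    simp
  have hinv : ∀ j ≤ s, Inv r ρ T s u j (z j) := by
    intro j
    induction j with
    | zero => intro _; exact h0
    | succ j ih =>
      intro hj
      rw [hz1]
      exact (hnx j (z j) ⟨by omega, ih (by omega)⟩).2.2
  have hgood : ∀ j < s, Good r ρ (z j) (z (j + 1)) ∧ ¬ Poor r ρ T K (z (j + 1)) := by
    intro j hj
    have h1 := hnx j (z j) ⟨hj, hinv j hj.le⟩
    rw [← hz1] at h1
    exact ⟨h1.1, h1.2.1⟩
  have hq : ∀ i < s, z (s - (i + 1)) ∈ P r ρ T (z (s - i)) := by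
    intro i hi
    have e1 : s - i = s - (i + 1) + 1 := by omega
    rw [e1]
    refine mem_P.2 ⟨?_, (hgood _ (by omega)).1⟩
    exact (hinv (s - (i + 1)) (by omega)).1.mono (by omega)
  have hR : ∀ i < s, Rich r ρ T K (z (s - i)) := by
    intro i hi
    refine rich_of_not_poor ⟨_, hq i hi⟩ ?_
    have e1 : s - i = s - (i + 1) + 1 := by omega
    rw [e1]
    exact (hgood _ (by omega)).2
  exact hC (rich_path E hK (fun i => z (s - i)) hR hq)

/-- PROOF. `good_F` with `k = i`: `Nr (5 * ρ) (F r i v) (F r (i+1) u)`; `card_filter_le_dd`: `pc i v ≥ pc (i+1) u - 5 ρ |F r (i+1) u| ≥ (tau ρ (i+1) - 5 ρ) |F r (i+1) u|` and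
`|F r i v| ≤ (1 + 5 ρ) |F r (i+1) u|`; `tau ρ i (1 + 5 ρ) ≤ tau ρ (i+1) - 5 ρ` because `tau ρ i ≤ 1`. -/
theorem kappa_step (E : Env r lt ρ m T) {s K i : ℕ} (hs : ρ * s ≤ 1 / 1000) (hi : i + 1 ≤ s)
    {u v : V} (hu : Bg r T (s + 1) u) (hg : Good r ρ u v)
    (h : tau ρ (i + 1) * (F r (i + 1) u).card ≤ (pc r ρ T K (i + 1) u : ℝ)) :
    tau ρ i * (F r i v).card ≤ (pc r ρ T K i v : ℝ) := by
  have hρ := E.rpos
  have hρ' := E.rle
  have his : ρ * i ≤ 1 / 1000 := by
    have h1 : (i : ℝ) ≤ s := by exact_mod_cast (by omega : i ≤ s)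
    exact (mul_le_mul_of_nonneg_left h1 hρ.le).trans hs
  have hi0 : 0 ≤ ρ * i := mul_nonneg hρ.le (Nat.cast_nonneg _)
  have h1 : Nr (5 * ρ) (F r i v) (F r (i + 1) u) :=
    good_F E (k := i) hg (fun l _ hl =>
      le_trans (Nat.le_mul_of_pos_left _ (by positivity)) (hu l (by omega))) i le_rfl
  have h2 := card_filter_le_dd (fun y => Poor r ρ T K y) (F r (i + 1) u) (F r i v)
  have h2' : (pc r ρ T K (i + 1) u : ℝ) ≤ pc r ρ T K i v + dd (F r (i + 1) u) (F r i v) := h2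
  have h3 := h1.symm.1
  have h4 := h1.card_le
  have hF : (0 : ℝ) ≤ (F r (i + 1) u).card := Nat.cast_nonneg _
  have htau : tau ρ (i + 1) = tau ρ i + 20 * ρ := by
    unfold tau
    push_cast
    ring
  have ht0 : 0 ≤ tau ρ i := by
    unfold tau
    linarith
  have ht1 : tau ρ i ≤ 1 := by
    unfold tau
    linarith
  have h5 := mul_le_mul_of_nonneg_left h4 ht0
  rw [htau] at h
  have h6 : tau ρ i * (5 * ρ) ≤ 5 * ρ := by nlinarith
  have h7 : tau ρ i * (5 * ρ) * (F r (i + 1) u).card ≤ 5 * ρ * (F r (i + 1) u).card :=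
    mul_le_mul_of_nonneg_right h6 hF
  have h8 : 0 ≤ ρ * (F r (i + 1) u).card := mul_nonneg hρ.le hF
  nlinarith

end Pool.Agent.Lib.MP_b0c2b5_co.C4
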