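import Pool.Agent.Lib.MP_b0c2b5_co.C4.Near

/-! Few bad arcs. -/

set_option autoImplicit false

namespace Pool.Agent.Lib.MP_b0c2b5_co.C4

open Finset LS
open scoped Classical

universe u

variable {V : Type u} [DecidableEq V]

/-- Kovari-Sos-Turan, dense case.

PROOF. Replace `B` by a subset with exactly `m = 2 t q` elements. Let `S` be the set of `z ∈ A` with
`t ≤ #{y ∈ B | z ∈ miss y}`. Counting the pairs `(y, z)` with `z ∈ miss y` in two ways:
`m |A| ≤ q Σ_y |miss y| = q Σ_z #{y ∈ B | z ∈ miss y} ≤ q (m |S| + t |A|)`, so (`m = 2 t q`)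
`t q |A| ≤ 2 t q^2 |S|`, so `|A| ≤ 2 q |S|` and `|S| ≥ t 2 ^ m`. For each `z ∈ S` choose a `t`-subset `Y z` of
`{y ∈ B | z ∈ miss y}`; there are at most `2 ^ m` subsets of `B` (`B.powerset`), so `t` elements `z` of `S` have the same `Y z`
(`Finset.exists_le_card_fiber_of_mul_le_card_of_maps_to`). -/
theorem kst {t q : ℕ} (ht : 1 ≤ t) (hq : 1 ≤ q) (A B : Finset V) (miss : V → Finset V)
    (hA : 2 * t * q * 2 ^ (2 * t * q) ≤ A.card) (hB : 2 * t * q ≤ B.card)
    (hsub : ∀ y ∈ B, miss y ⊆ A) (hmiss : ∀ y ∈ B, A.card ≤ q * (miss y).card) :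
    ∃ Y ⊆ B, Y.card = t ∧ ∃ Z ⊆ A, Z.card = t ∧ ∀ y ∈ Y, ∀ z ∈ Z, z ∈ miss y := by
  obtain ⟨B', hB'B, hB'⟩ := Finset.exists_subset_card_eq hB
  set S : Finset V := A.filter (fun z => t ≤ (B'.filter (fun y => z ∈ miss y)).card) with hS
  have hsum : ∑ y ∈ B', (miss y).card = ∑ z ∈ A, (B'.filter (fun y => z ∈ miss y)).card := by
    have h1 : ∀ y ∈ B', (miss y).card = ∑ z ∈ A, if z ∈ miss y then 1 else 0 := by
      intro y hy
      rw [← Finset.card_filter]
      congr 1
      ext z
      rw [mem_filter]
      exact ⟨fun h => ⟨hsub y (hB'B hy) h, h⟩, fun h => h.2⟩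
    rw [Finset.sum_congr rfl h1, Finset.sum_comm]
    refine Finset.sum_congr rfl fun z _ => ?_
    rw [← Finset.card_filter]
  have hle : ∑ z ∈ A, (B'.filter (fun y => z ∈ miss y)).card ≤
      (2 * t * q) * S.card + t * A.card := by
    have h1 : ∀ z ∈ A, (B'.filter (fun y => z ∈ miss y)).card ≤
        (if t ≤ (B'.filter (fun y => z ∈ miss y)).card then 2 * t * q else 0) + t := by
      intro z _
      split_ifs with h
      · have h2 : (B'.filter (fun y => z ∈ miss y)).card ≤ B'.card :=
          card_le_card (filter_subset _ _)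
        omega
      · omega
    refine (Finset.sum_le_sum h1).trans ?_
    rw [Finset.sum_add_distrib, ← Finset.sum_filter, Finset.sum_const, Finset.sum_const,
      smul_eq_mul, smul_eq_mul]
    exact le_of_eq (by rw [hS]; ring)
  have hge : (2 * t * q) * A.card ≤ q * ∑ y ∈ B', (miss y).card := by
    rw [Finset.mul_sum]
    have h1 : ∑ _y ∈ B', A.card ≤ ∑ y ∈ B', q * (miss y).card :=
      Finset.sum_le_sum fun y hy => hmiss y (hB'B hy)
    rwa [Finset.sum_const, smul_eq_mul, hB'] at h1
  have hcard : A.card ≤ 2 * q * S.card := by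
    have h1 : (2 * t * q) * A.card ≤ q * ((2 * t * q) * S.card + t * A.card) := by
      refine hge.trans (Nat.mul_le_mul_left q ?_)
      rw [hsum]
      exact hle
    have h2 : (t * q) * A.card ≤ (t * q) * (2 * q * S.card) := by
      nlinarith
    exact Nat.le_of_mul_le_mul_left h2 (Nat.mul_pos ht hq)
  have hScard : 2 ^ (2 * t * q) * t ≤ S.card := by
    have h1 : (2 * q) * (2 ^ (2 * t * q) * t) ≤ (2 * q) * S.card := by
      refine le_trans (le_of_eq ?_) (hA.trans hcard)
      ring
    exact Nat.le_of_mul_le_mul_left h1 (by omega)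
  have hch : ∀ z ∈ S, ∃ Y ⊆ B'.filter (fun y => z ∈ miss y), Y.card = t := fun z hz =>
    Finset.exists_subset_card_eq (mem_filter.1 hz).2
  choose! Yf hYs hYc using hch
  obtain ⟨Y, hY, hfib⟩ := Finset.exists_le_card_fiber_of_mul_le_card_of_maps_to
    (s := S) (t := B'.powerset) (f := Yf) (n := t)
    (fun z hz => mem_powerset.2 ((hYs z hz).trans (filter_subset _ _)))
    ⟨∅, empty_mem_powerset _⟩ (by rw [card_powerset, hB']; exact hScard)
  obtain ⟨Z, hZs, hZc⟩ := Finset.exists_subset_card_eq hfib
  obtain ⟨z0, hz0⟩ : Z.Nonempty := by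
    rw [← card_pos]; omega
  have hz0' := mem_filter.1 (hZs hz0)
  refine ⟨Y, (mem_powerset.1 hY).trans hB'B, ?_, Z, ?_, hZc, ?_⟩
  · rw [← hz0'.2]
    exact hYc z0 hz0'.1
  · intro z hz
    exact (mem_filter.1 (mem_filter.1 (hZs hz)).1).1
  · intro y hy z hz
    have hz' := mem_filter.1 (hZs hz)
    rw [← hz'.2] at hy
    exact (mem_filter.1 (hYs z hz'.1 hy)).2

variable [Fintype V] {r lt : V → V → Prop}

/-- Without the out-comb with two spine vertices there are few bad arcs out of a vertex whose children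
have many children.

PROOF. If `N r u` is empty then so is `bad r ρ u`. Otherwise `v = star r u` is a child of `u`, `A = N r v`. Suppose `bad r (1/q) u` has more than
`m = 2 t q` elements; for `y` in it `dd (N r y) A > 2 |A| / q`, and `|N r y| ≤ |A|` (`star_max`) gives `|N r y \ A| ≤ |A \ N r y|`, so
`q |A \ N r y| ≥ |A|`. Apply `kst` to `A`, `bad r (1/q) u` and `miss y = A \ N r y`: the sets `Y`, `Z` are the leaves of a comb with spine `u → v`
(`p 0 = u`, `p 1 = v`, `Z 0 = Y`, `Z 1 = Z`): for `y ∈ Y` there is no arc `y → v` by `sf` (`u → y`, `u → v`), and none from `y` to `Z`. -/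
theorem bad_card_le (h : HO r lt) {t q : ℕ} (ht : 1 ≤ t) (hq : 1 ≤ q) (hU : ¬ UpComb r 2 t) (u : V)
    (hu : 2 * t * q * 2 ^ (2 * t * q) ≤ (N r (star r u)).card) :
    (bad r (1 / q) u).card ≤ 2 * t * q := by
  by_cases hne : (N r u).Nonempty
  · by_contra hc
    rw [not_le] at hc
    apply hU
    have huv : r u (star r u) := mem_N.1 (star_mem hne)
    have hq' : (0 : ℝ) < q := by exact_mod_cast hq
    obtain ⟨Y, hYB, hYc, Z, hZA, hZc, hYZ⟩ := kst ht hq (N r (star r u)) (bad r (1 / q) u)
      (fun y => N r (star r u) \ N r y) hu hc.le (fun y _ => sdiff_subset) (by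
        intro y hy
        obtain ⟨hy1, hy2⟩ := mem_bad.1 hy
        have h1 : 2 * (1 / (q : ℝ)) * ((N r (star r u)).card : ℝ) <
            dd (N r y) (N r (star r u)) := by
          by_contra h
          exact hy2 ⟨hy1, not_lt.1 h⟩
        have h2 := star_max hy1
        have h3 : (N r y \ N r (star r u)).card ≤ (N r (star r u) \ N r y).card := by
          have e1 := card_sdiff_add_card_inter (N r y) (N r (star r u))
          have e2 := card_sdiff_add_card_inter (N r (star r u)) (N r y)
          rw [inter_comm] at e2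
          omega
        have h3' : ((N r y \ N r (star r u)).card : ℝ) ≤ (N r (star r u) \ N r y).card := by
          exact_mod_cast h3
        have h4 : 2 * (1 / (q : ℝ)) * ((N r (star r u)).card : ℝ) <
            2 * ((N r (star r u) \ N r y).card : ℝ) := by
          refine h1.trans_le ?_
          unfold dd
          linarith
        have h5 : ((N r (star r u)).card : ℝ) < q * ((N r (star r u) \ N r y).card : ℝ) := by
          have h6 := mul_lt_mul_of_pos_left h4 hq'
          have h7 : (q : ℝ) * (2 * (1 / (q : ℝ)) * ((N r (star r u)).card : ℝ)) =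
              2 * ((N r (star r u)).card : ℝ) := by
            field_simp
          rw [h7] at h6
          linarith
        exact_mod_cast h5.le)
    refine ⟨fun i => if i = 0 then u else star r u, fun i => if i = 0 then Y else Z, ?_, ?_, ?_⟩
    · intro i hi
      have : i = 0 := by omega
      subst this
      simpa using huv
    · intro i hi
      by_cases h0 : i = 0
      · subst h0
        simp only [if_true]
        exact ⟨hYc, fun z hz => (mem_bad.1 (hYB hz)).1⟩
      · simp only [h0, if_false]
        exact ⟨hZc, fun z hz => mem_N.1 (hZA hz)⟩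
    · intro i l hil hl
      have hi0 : i = 0 := by omega
      have hl1 : l ≠ 0 := by omega
      subst hi0
      simp only [if_true, hl1, if_false]
      intro z hz
      have huz : r u z := (mem_bad.1 (hYB hz)).1
      refine ⟨fun hzv => h.sf u (star r u) z huv (h.arc _ _ huz) (h.arc _ _ hzv), ?_⟩
      intro z' hz' hzz'
      exact (mem_sdiff.1 (hYZ z hz z' hz')).2 (mem_N.2 hzz')
  · have h0 : bad r (1 / q) u = ∅ := by
      rw [Finset.not_nonempty_iff_eq_empty] at hne
      unfold bad
      rw [hne, filter_empty]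
    rw [h0, card_empty]
    exact Nat.zero_le _

end Pool.Agent.Lib.MP_b0c2b5_co.C4
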