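import Pool.Agent.Lib.MP_b0c2b5_co.C4.Transfer
import Pool.Agent.Lib.MP_b0c2b5_co.C4.Col

/-! The last class. -/

set_option autoImplicit false

namespace Pool.Agent.Lib.MP_b0c2b5_co.C4

open Finset LS
open scoped Classical

universe u

variable {V : Type u} [Fintype V] [DecidableEq V] {r lt : V → V → Prop} {ρ : ℝ} {m T : ℕ}

/-- the last class -/
def Y (r : V → V → Prop) (ρ : ℝ) (T K : ℕ) : Set V :=
  {u | Bg r T 1 u ∧ u ∉ XX r ρ T K ∧ 1 / 4 * ((N r u).card : ℝ) ≤ (pc r ρ T K 0 u : ℝ)}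

/-- PROOF. Remove from the at least `|N r u| / 4` poor elements `z` of `N r u`: those not in `N r u'` (at most `100 ρ |N r u| ≤ 0.01 |N r u|`), those in `bad r ρ u`, `bad r ρ u'` (at most `m` each,
`Bg.bad_le`, `m ≤ 0.001 |N r u|`), those with `u ∈ exc r ρ T K z` (less than `|N r u| / 10`, because `u ∉ XX`), and those in `N r u'` with `u' ∈ exc r ρ T K z` (less than `|N r u'| / 10 ≤ 0.101 |N r u|`). Some `z`
remains: `u, u' ∈ P r ρ T z`, and `near_u0` twice, `Nr.trans`. -/
theorem near_of_near (E : Env r lt ρ m T) {K : ℕ} {u u' : V} (hu : u ∈ Y r ρ T K)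
    (hu' : u' ∈ Y r ρ T K) (h : Nr (100 * ρ) (N r u) (N r u')) :
    Nr (21 * ρ) (N r u) (N r u') := by
  obtain ⟨hu1, hu2, hu3⟩ := hu
  obtain ⟨hu1', hu2', hu3'⟩ := hu'
  have hρ := E.rpos
  have hρ' := E.rle
  have hn : 2 ^ 1 * (2 * T) ≤ (N r u).card := hu1 0 (by norm_num)
  have hmT := E.mT
  have hm : ((bad r ρ u).card : ℝ) ≤ m := by exact_mod_cast hu1.bad_le E
  have hm' : ((bad r ρ u').card : ℝ) ≤ m := by exact_mod_cast hu1'.bad_le E
  have hnm : (4000 : ℝ) * (m + 1) ≤ (N r u).card := by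
    have : 4000 * (m + 1) ≤ (N r u).card := by omega
    exact_mod_cast this
  have hX : (10 : ℝ) * (((N r u).filter (fun z => u ∈ exc r ρ T K z)).card : ℝ) < (N r u).card := by
    have : 10 * ((N r u).filter (fun z => u ∈ exc r ρ T K z)).card < (N r u).card := not_le.1 hu2
    exact_mod_cast this
  have hX' : (10 : ℝ) * (((N r u').filter (fun z => u' ∈ exc r ρ T K z)).card : ℝ) < (N r u').card := by
    have : 10 * ((N r u').filter (fun z => u' ∈ exc r ρ T K z)).card < (N r u').card := not_le.1 hu2'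
    exact_mod_cast this
  have hcard := h.symm.card_le
  have h0 : (0 : ℝ) ≤ (N r u).card := Nat.cast_nonneg _
  have hs := card_sdiff_le_dd (N r u) (N r u')
  have hs2 := h.1
  have hpc : 1 / 4 * ((N r u).card : ℝ) ≤ (((N r u).filter (fun z => Poor r ρ T K z)).card : ℝ) := hu3
  have hex : ∃ z ∈ (N r u).filter (fun z => Poor r ρ T K z),
      z ∉ ((((N r u \ N r u') ∪ bad r ρ u) ∪ bad r ρ u') ∪
        (N r u).filter (fun z => u ∈ exc r ρ T K z)) ∪ (N r u').filter (fun z => u' ∈ exc r ρ T K z) := by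
    by_contra hc
    push Not at hc
    have h1 := (card_le_card (show (N r u).filter (fun z => Poor r ρ T K z) ⊆ _ from hc))
    have h2 := card_union_le ((((N r u \ N r u') ∪ bad r ρ u) ∪ bad r ρ u') ∪
        (N r u).filter (fun z => u ∈ exc r ρ T K z)) ((N r u').filter (fun z => u' ∈ exc r ρ T K z))
    have h3 := card_union_le (((N r u \ N r u') ∪ bad r ρ u) ∪ bad r ρ u')
        ((N r u).filter (fun z => u ∈ exc r ρ T K z))
    have h4 := card_union_le ((N r u \ N r u') ∪ bad r ρ u) (bad r ρ u')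
    have h5 := card_union_le (N r u \ N r u') (bad r ρ u)
    have h6 : ((N r u).filter (fun z => Poor r ρ T K z)).card ≤ (N r u \ N r u').card +
      (bad r ρ u).card + (bad r ρ u').card + ((N r u).filter (fun z => u ∈ exc r ρ T K z)).card +
      ((N r u').filter (fun z => u' ∈ exc r ρ T K z)).card := by omega
    have h7 : (((N r u).filter (fun z => Poor r ρ T K z)).card : ℝ) ≤ (N r u \ N r u').card +
      (bad r ρ u).card + (bad r ρ u').card + ((N r u).filter (fun z => u ∈ exc r ρ T K z)).card +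
      ((N r u').filter (fun z => u' ∈ exc r ρ T K z)).card := by exact_mod_cast h6
    have h8 : 100 * ρ * ((N r u).card : ℝ) ≤ 1 / 100 * (N r u).card :=
      mul_le_mul_of_nonneg_right (by linarith) h0
    linarith
  obtain ⟨z, hz, hzn⟩ := hex
  simp only [mem_union, not_or, mem_filter, not_and, mem_sdiff, not_not] at hz hzn
  obtain ⟨hzu, hzp⟩ := hz
  obtain ⟨⟨⟨⟨hz1, hz2⟩, hz3⟩, hz4⟩, hz5⟩ := hzn
  have hzu' := hz1 hzu
  have hP : u ∈ P r ρ T z := mem_P.2 ⟨hu1, good_of_not_bad (mem_N.1 hzu) hz2⟩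
  have hP' : u' ∈ P r ρ T z := mem_P.2 ⟨hu1', good_of_not_bad (mem_N.1 hzu') hz3⟩
  have a1 := near_u0 hzp hP (hz4 hzu)
  have a2 := near_u0 hzp hP' (hz5 hzu')
  refine a1.trans a2.symm (by linarith) (by linarith) ?_
  nlinarith

/-- PROOF. `three_col_quot` with `g = Good r ρ` and `e x y = Nr (100 * ρ) (N r x) (N r y)`. Transitivity: `near_of_near` twice and `Nr.trans` (`43 ρ`). `h1`: `nr_one` for `x`, `x'`
(`100 ρ ≤ 1/4`), `good_nr` twice, `Nr.trans`. `h2`: `disjoint_N`, `not_nr_of_disjoint`. -/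
theorem last_col (E : Env r lt ρ m T) (K : ℕ) : ColOn (Good r ρ) (Y r ρ T K) 3 := by
  have hρ := E.rpos
  have hρ' := E.rle
  have hmT := E.mT
  have hT : 0 < T := by omega
  refine three_col_quot (Good r ρ) (fun x y => Nr (100 * ρ) (N r x) (N r y)) (Y r ρ T K) ?_ ?_ ?_ ?_ ?_
  · intro x _
    have h0 : (0 : ℝ) ≤ 100 * ρ * (N r x).card := by positivity
    have h1 : dd (N r x) (N r x) = 0 := by simp [dd]
    exact ⟨by rw [h1]; exact h0, by rw [h1]; exact h0⟩
  · intro x _ y _ h
    exact h.symm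
  · intro x hx y hy z hz h h'
    refine (near_of_near E hx hy h).trans (near_of_near E hy hz h') (by linarith) (by linarith) ?_
    nlinarith
  · intro x hx x' hx' y _ y' _ h hg hg'
    have b1 : 2 ^ 1 * (2 * T) ≤ (N r x).card := hx.1 0 (by norm_num)
    have b2 : 2 ^ 1 * (2 * T) ≤ (F r 1 x').card := hx'.1 1 (by norm_num)
    have h1 : Nr (5 * ρ) (N r (star r x)) (N r (star r x')) :=
      nr_one E (h.mono (by linarith)) (by omega) (by omega)
    have h2 : Nr (9 * ρ) (N r y) (N r (star r x')) := by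
      refine (good_nr E hg).trans h1 (by linarith) (by linarith) ?_
      nlinarith
    have h3 : Nr (13 * ρ) (N r y) (N r y') := by
      refine h2.trans (good_nr E hg').symm (by linarith) (by linarith) ?_
      nlinarith
    exact h3.mono (by linarith)
  · intro x hx y _ hg h
    have b1 : 2 ^ 1 * (2 * T) ≤ (N r x).card := hx.1 0 (by norm_num)
    refine not_nr_of_disjoint (disjoint_N E (E.ho.arc _ _ hg.1)) ?_ (by linarith) h
    apply card_pos.1
    omega

end Pool.Agent.Lib.MP_b0c2b5_co.C4
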