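import Pool.Agent.Lib.MP_b0c2b5_co.C4.Kst
import Pool.Agent.Lib.MP_b0c2b5_co.C4.Exc
import Pool.Agent.Lib.MP_b0c2b5_co.C4.Kappa
import Pool.Agent.Lib.MP_b0c2b5_co.C4.Last

/-! Hasse digraphs without the out-comb with two spine vertices and without the in-comb with `s` spine vertices. -/

set_option autoImplicit false

namespace Pool.Agent.Lib.MP_b0c2b5_co.C4

open Finset LS
open scoped Classical

universe u

/-- The environment. PROOF. `ρ = 1 / q`, `m = 2 t q`, `T = 2 t q 2 ^ (2 t q) + 1000 (m + 1)`: `bad_card_le`. -/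
theorem exists_env {V : Type u} [Fintype V] [DecidableEq V] {r lt : V → V → Prop} (h : HO r lt)
    {t q : ℕ} (ht : 1 ≤ t) (hq : 10000 ≤ q) (hU : ¬ UpComb r 2 t) :
    Env r lt (1 / q) (2 * t * q) (2 * t * q * 2 ^ (2 * t * q) + 1000 * (2 * t * q + 1)) := by
  have hq' : (10000 : ℝ) ≤ q := by exact_mod_cast hq
  refine ⟨h, ?_, ?_, ?_, Nat.le_add_left _ _⟩
  · positivity
  · exact one_div_le_one_div_of_le (by norm_num) hq'
  · intro u hu
    exact bad_card_le h ht (by omega) hU u (le_trans (Nat.le_add_right _ _) hu)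

/-- All vertices with large sets.

PROOF. Split `{u | Bg r T (s+1) u}` into the part in `XX` (`XX_col`, `Bg.mono`) and the classes of the vertices outside of `XX` with `kappa = i`, `i < s` (`exists_kappa`, the least `i`: `Nat.find`). Class `0` is contained in
`Y r ρ T K` (`tau ρ 0 = 1 / 4`, `F r 0 = N r`): `last_col` and for the bad arcs `colOn_of_outdeg` for the relation of the bad arcs (it is a sub-relation, `HO` is inherited: or use
`outdeg_col`), `ColOn.prod`: `3 (m + 1)` colours. Class `i + 1`: there is no good arc `u → v` in the class (`kappa_step` gives `kappa v ≤ i`), so `colOn_of_outdeg` with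
`S = bad r ρ u` (`Bg.bad_le`): `m + 1` colours. Use `ColOn.union`, `ColOn.classes`. -/
theorem big_col {V : Type u} [Fintype V] [DecidableEq V] {r lt : V → V → Prop} {ρ : ℝ} {m T : ℕ}
    (E : Env r lt ρ m T) {s t K : ℕ} (hs : ρ * s ≤ 1 / 1000) (hK : (s + s * t) * m + t ≤ K)
    (hC : ¬ UpComb (rev r) s t) :
    ColOn r {u | Bg r T (s + 1) u} ((20 * K + m + 1) + s * (3 * (m + 1))) := by
  -- the level of a vertex
  let κ : V → ℕ := fun v => sInf {i | tau ρ i * (F r i v).card ≤ (pc r ρ T K i v : ℝ)}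
  have hκ : ∀ v, Bg r T (s + 1) v → κ v < s ∧
      tau ρ (κ v) * (F r (κ v) v).card ≤ (pc r ρ T K (κ v) v : ℝ) := by
    intro v hv
    obtain ⟨i, hi, hi2⟩ := exists_kappa E hs hK hC hv
    refine ⟨lt_of_le_of_lt (Nat.sInf_le hi2) hi, ?_⟩
    exact Nat.sInf_mem (s := {i | tau ρ i * (F r i v).card ≤ (pc r ρ T K i v : ℝ)}) ⟨i, hi2⟩
  have h1 : ColOn r {u | Bg r T (s + 1) u ∧ u ∈ XX r ρ T K} (20 * K + m + 1) :=
    (XX_col E K).mono (fun u hu => ⟨hu.1.mono (by omega), hu.2⟩) le_rfl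
  have h2 : ColOn r {u | Bg r T (s + 1) u ∧ u ∉ XX r ρ T K} (s * (3 * (m + 1))) := by
    refine ColOn.classes κ (fun v hv => (hκ v hv.1).1) ?_
    intro i hi
    rcases Nat.eq_zero_or_pos i with hi0 | hi0
    · subst hi0
      -- class 0
      have hY : {v | v ∈ {u | Bg r T (s + 1) u ∧ u ∉ XX r ρ T K} ∧ κ v = 0} ⊆ Y r ρ T K := by
        rintro v ⟨⟨hv, hvX⟩, hv0⟩
        have h3 := (hκ v hv).2
        rw [hv0] at h3
        have h4 : tau ρ 0 = 1 / 4 := by
          unfold tau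
          simp
        rw [h4] at h3
        exact ⟨hv.mono (by omega), hvX, h3⟩
      have hg := (last_col E K).mono hY le_rfl
      obtain ⟨f, hf, hf2⟩ := outdeg_col E.ho
        (fun x y => Bg r T (s + 1) x ∧ r x y ∧ ¬ Good r ρ x y)
        (fun x y hxy => E.ho.arc x y hxy.2.1) m (by
          intro v
          by_cases hv : Bg r T (s + 1) v
          · exact ⟨bad r ρ v, Bg.bad_le E (hv.mono (by omega)), fun w hw => mem_bad.2 hw.2⟩
          · exact ⟨∅, by simp, fun w hw => absurd hw.1 hv⟩)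
      have hb : ColOn (fun x y => r x y ∧ ¬ Good r ρ x y)
          {v | v ∈ {u | Bg r T (s + 1) u ∧ u ∉ XX r ρ T K} ∧ κ v = 0} (m + 1) :=
        ⟨f, fun v _ => hf v, fun x hx y _ hxy => hf2 x y ⟨hx.1.1, hxy⟩⟩
      refine ColOn.prod hg hb ?_
      intro x _ y _ hxy
      by_cases hgd : Good r ρ x y
      · exact Or.inl hgd
      · exact Or.inr ⟨hxy, hgd⟩
    · obtain ⟨i, rfl⟩ : ∃ j, i = j + 1 := ⟨i - 1, by omega⟩
      have h3 : ColOn r {v | v ∈ {u | Bg r T (s + 1) u ∧ u ∉ XX r ρ T K} ∧ κ v = i + 1}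
          (m + 1) := by
        refine colOn_of_outdeg E.ho _ m ?_
        rintro v ⟨⟨hv, hvX⟩, hvi⟩
        refine ⟨bad r ρ v, Bg.bad_le E (hv.mono (by omega)), ?_⟩
        rintro w ⟨⟨hw, hwX⟩, hwi⟩ hvw
        refine mem_bad.2 ⟨hvw, fun hg => ?_⟩
        have h4 := (hκ v hv).2
        rw [hvi] at h4
        have h5 := kappa_step E (K := K) hs (by omega) hv hg h4
        have h6 : κ w ≤ i := Nat.sInf_le h5
        omega
      exact h3.mono subset_rfl (by omega)
  refine (h1.union h2).mono ?_ le_rfl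
  intro u hu
  by_cases hX : u ∈ XX r ρ T K
  · exact Or.inl ⟨hu, hX⟩
  · exact Or.inr ⟨hu, hX⟩

/-- PROOF. `exists_env` with `q = 10000 (s + 1)`, `small_col` with `M = s + 1`, `Bg_of_thr`, `big_col` with `K = (s + s t) m + t`, `ColOn.union`. The constant only depends on `s` and `t`. -/
theorem main (s t : ℕ) (ht : 1 ≤ t) : ∃ C : ℕ, ∀ (V : Type u) [Finite V] (r lt : V → V → Prop),
    HO r lt → ¬ UpComb r 2 t → ¬ UpComb (rev r) s t → ColOn r Set.univ C := by
  obtain ⟨q, hq⟩ : ∃ q, q = 10000 * (s + 1) := ⟨_, rfl⟩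
  obtain ⟨m, hm⟩ : ∃ m, m = 2 * t * q := ⟨_, rfl⟩
  obtain ⟨T, hT⟩ : ∃ T, T = 2 * t * q * 2 ^ (2 * t * q) + 1000 * (2 * t * q + 1) := ⟨_, rfl⟩
  obtain ⟨K, hK⟩ : ∃ K, K = (s + s * t) * m + t := ⟨_, rfl⟩
  refine ⟨(s + 1 + 1) * thr T (s + 1) 0 + ((20 * K + m + 1) + s * (3 * (m + 1))), ?_⟩
  intro V _ r lt h hU hC
  cases nonempty_fintype V
  have E : Env r lt (1 / q) m T := by
    rw [hm, hT]
    exact exists_env h ht (by omega) hU
  have hs : (1 / q : ℝ) * s ≤ 1 / 1000 := by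
    have h1 : (q : ℝ) = 10000 * (s + 1) := by
      rw [hq]
      push_cast
      ring
    have h2 : (0 : ℝ) ≤ s := Nat.cast_nonneg _
    rw [h1, one_div, inv_mul_le_iff₀ (by positivity)]
    linarith
  have h1 := small_col E (M := s + 1) (by omega)
  have h2 := big_col E hs (le_of_eq hK.symm) hC
  refine (h1.union h2).mono ?_ le_rfl
  intro u _
  by_cases hu : ∀ j ≤ s + 1, thr T (s + 1) j ≤ (F r j u).card
  · exact Or.inr (Bg_of_thr hu)
  · exact Or.inl hu

end Pool.Agent.Lib.MP_b0c2b5_co.C4
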