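import Pool.Agent.Lib.MP_b0c2b5_co.C4.Defs

/-! Nearly equal sets. -/

set_option autoImplicit false

namespace Pool.Agent.Lib.MP_b0c2b5_co.C4

open Finset

universe u

variable {V : Type u} [DecidableEq V] {A B C : Finset V}

theorem dd_nonneg (A B : Finset V) : 0 ≤ dd A B := by
  unfold dd
  positivity

theorem dd_comm (A B : Finset V) : dd A B = dd B A := by
  unfold dd
  ring

theorem dd_triangle (A B C : Finset V) : dd A C ≤ dd A B + dd B C := by
  have h1 : (A \ C).card ≤ (A \ B).card + (B \ C).card := by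
    refine (card_le_card ?_).trans (card_union_le _ _)
    intro x hx
    rw [mem_sdiff] at hx
    rw [mem_union, mem_sdiff, mem_sdiff]
    by_cases h : x ∈ B
    · exact Or.inr ⟨h, hx.2⟩
    · exact Or.inl ⟨hx.1, h⟩
  have h2 : (C \ A).card ≤ (C \ B).card + (B \ A).card := by
    refine (card_le_card ?_).trans (card_union_le _ _)
    intro x hx
    rw [mem_sdiff] at hx
    rw [mem_union, mem_sdiff, mem_sdiff]
    by_cases h : x ∈ B
    · exact Or.inr ⟨h, hx.2⟩
    · exact Or.inl ⟨hx.1, h⟩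
  have h1' : ((A \ C).card : ℝ) ≤ (A \ B).card + (B \ C).card := by exact_mod_cast h1
  have h2' : ((C \ A).card : ℝ) ≤ (C \ B).card + (B \ A).card := by exact_mod_cast h2
  unfold dd
  linarith

/-- sizes -/
theorem card_le_dd (A B : Finset V) : (A.card : ℝ) ≤ B.card + dd A B := by
  have h1 : A.card ≤ B.card + (A \ B).card := by
    have h2 : A ⊆ B ∪ (A \ B) := by
      intro x hx
      by_cases h : x ∈ B
      · exact mem_union_left _ h
      · exact mem_union_right _ (mem_sdiff.2 ⟨hx, h⟩)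
    exact (card_le_card h2).trans (card_union_le _ _)
  have h1' : (A.card : ℝ) ≤ B.card + (A \ B).card := by exact_mod_cast h1
  have h3 : (0 : ℝ) ≤ (B \ A).card := Nat.cast_nonneg _
  unfold dd
  linarith

/-- the part of a set with a property -/
theorem card_filter_le_dd (S : V → Prop) [DecidablePred S] (A B : Finset V) :
    ((A.filter S).card : ℝ) ≤ (B.filter S).card + dd A B := by
  have h1 : (A.filter S).card ≤ (B.filter S).card + (A \ B).card := by
    have h2 : A.filter S ⊆ B.filter S ∪ (A \ B) := by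
      intro x hx
      rw [mem_filter] at hx
      by_cases h : x ∈ B
      · exact mem_union_left _ (mem_filter.2 ⟨h, hx.2⟩)
      · exact mem_union_right _ (mem_sdiff.2 ⟨hx.1, h⟩)
    exact (card_le_card h2).trans (card_union_le _ _)
  have h1' : ((A.filter S).card : ℝ) ≤ (B.filter S).card + (A \ B).card := by exact_mod_cast h1
  have h3 : (0 : ℝ) ≤ (B \ A).card := Nat.cast_nonneg _
  unfold dd
  linarith

theorem card_sdiff_le_dd (A B : Finset V) : ((A \ B).card : ℝ) ≤ dd A B := by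
  have h3 : (0 : ℝ) ≤ (B \ A).card := Nat.cast_nonneg _
  unfold dd
  linarith

theorem dd_disjoint (h : Disjoint A B) : dd A B = A.card + B.card := by
  unfold dd
  rw [sdiff_eq_self_of_disjoint h, sdiff_eq_self_of_disjoint h.symm]

theorem Nr.symm {ε : ℝ} (h : Nr ε A B) : Nr ε B A := by
  unfold Nr at *
  rw [dd_comm B A]
  exact ⟨h.2, h.1⟩

theorem Nr.mono {ε δ : ℝ} (h : Nr ε A B) (hε : ε ≤ δ) : Nr δ A B :=
  ⟨h.1.trans (mul_le_mul_of_nonneg_right hε (Nat.cast_nonneg _)),
    h.2.trans (mul_le_mul_of_nonneg_right hε (Nat.cast_nonneg _))⟩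

theorem Nr.trans {ε δ γ : ℝ} (h : Nr ε A B) (h' : Nr δ B C) (hε : 0 ≤ ε) (hδ : 0 ≤ δ)
    (hγ : ε + δ + ε * δ ≤ γ) : Nr γ A C := by
  have h1 := dd_triangle A B C
  have h2 := card_le_dd B A
  have h3 := card_le_dd B C
  rw [dd_comm B A] at h2
  obtain ⟨a1, a2⟩ := h
  obtain ⟨b1, b2⟩ := h'
  have hA : (0 : ℝ) ≤ A.card := Nat.cast_nonneg _
  have hC : (0 : ℝ) ≤ C.card := Nat.cast_nonneg _
  constructor
  · have e1 : (B.card : ℝ) ≤ (1 + ε) * A.card := by linarith
    have e2 := mul_le_mul_of_nonneg_left e1 hδ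
    have e3 := mul_le_mul_of_nonneg_right hγ hA
    nlinarith
  · have e1 : (B.card : ℝ) ≤ (1 + δ) * C.card := by linarith
    have e2 := mul_le_mul_of_nonneg_left e1 hε
    have e3 := mul_le_mul_of_nonneg_right hγ hC
    nlinarith

theorem Nr.card_le {ε : ℝ} (h : Nr ε A B) : (A.card : ℝ) ≤ (1 + ε) * B.card := by
  have h1 := card_le_dd A B
  have h2 := h.2
  linarith

theorem Nr.card_ge {ε : ℝ} (h : Nr ε A B) : (1 - ε) * B.card ≤ (A.card : ℝ) := by
  have h1 := card_le_dd B A
  have h2 := h.2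
  rw [dd_comm] at h1
  linarith

/-- nearness from a one-sided estimate -/
theorem nr_of_le {ρ : ℝ} (hρ : 0 ≤ ρ) (hρ' : ρ ≤ 1 / 10000) (h : dd A B ≤ 2 * ρ * B.card) :
    Nr (3 * ρ) A B := by
  have h1 := card_le_dd B A
  rw [dd_comm B A] at h1
  have hB : (0 : ℝ) ≤ B.card := Nat.cast_nonneg _
  have e1 : ρ * B.card ≤ 1 / 10000 * B.card := mul_le_mul_of_nonneg_right hρ' hB
  constructor
  · have e2 : (2 / 3 : ℝ) * B.card ≤ A.card := by linarith
    have e3 := mul_le_mul_of_nonneg_left e2 hρ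
    linarith
  · have := mul_nonneg hρ hB
    linarith

/-- nearness of two sets which are both near to a third one, in the form of the transfer lemma -/
theorem nr_of_le_add {ρ : ℝ} (hρ : 0 ≤ ρ) (hρ' : ρ ≤ 1 / 10000)
    (h : dd A B ≤ 2 * ρ * A.card + 2 * ρ * B.card) : Nr (5 * ρ) A B := by
  have h1 := card_le_dd B A
  have h2 := card_le_dd A B
  rw [dd_comm B A] at h1
  have hA : (0 : ℝ) ≤ A.card := Nat.cast_nonneg _
  have hB : (0 : ℝ) ≤ B.card := Nat.cast_nonneg _
  have hd := dd_nonneg A B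
  have e1 := mul_le_mul_of_nonneg_left h1 hρ
  have e2 := mul_le_mul_of_nonneg_left h2 hρ
  have e3 : ρ * dd A B ≤ 1 / 10000 * dd A B := mul_le_mul_of_nonneg_right hρ' hd
  have e4 := mul_nonneg hρ hA
  have e5 := mul_nonneg hρ hB
  constructor
  · nlinarith
  · nlinarith

/-- disjoint nonempty sets are not near -/
theorem not_nr_of_disjoint {ε : ℝ} (h : Disjoint A B) (hA : A.Nonempty) (hε : ε < 1) :
    ¬ Nr ε A B := by
  intro hn
  have h1 := hn.1
  rw [dd_disjoint h] at h1
  have h2 : (0 : ℝ) < A.card := by exact_mod_cast hA.card_pos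
  have h3 : (0 : ℝ) ≤ B.card := Nat.cast_nonneg _
  nlinarith

end Pool.Agent.Lib.MP_b0c2b5_co.C4
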