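import Pool.Agent.Lib.MP_b0c2b5_co.C4.Main
import Pool.Agent.Lib.MP_b0c2b5_co.C4.Embed

/-! Reduction of the theorem for the caterpillar with four spine vertices. -/

set_option autoImplicit false

namespace Pool.Agent.Lib.MP_b0c2b5_co.C4

open LS

universe u

private theorem Red_res_res {V : Type u} (r : V → V → Prop) {A B : Set V} (h : B ⊆ A) :
    res (res r A) B = res r B := by
  funext x y
  simp only [res, eq_iff_iff]
  constructor
  · rintro ⟨hx, hy, _, _, hr⟩
    exact ⟨hx, hy, hr⟩
  · rintro ⟨hx, hy, hr⟩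
    exact ⟨hx, hy, h hx, h hy, hr⟩

private theorem Red_colOn_one {V : Type u} {r : V → V → Prop} {S : Set V}
    (h : ∀ x ∈ S, ∀ y ∈ S, ¬ r x y) : ColOn r S 1 :=
  ⟨fun _ => 0, fun _ _ => Nat.one_pos, fun x hx y hy hr => absurd hr (h x hx y hy)⟩

/-- The part without out-combs with two spine vertices.

PROOF. `C` from `main 3 t`; the bound is `C + 1 + t`. `r' = res r W`. `S1` = the `v ∈ W` with at least `t` out-neighbours in `W`; `W \ S1` is `t`-colourable (`colOn_of_outdeg` of
`C4/Small.lean` with `t - 1`). `S3` = the `v ∈ S1` with `Root (rev (res r S1)) 3 t v`: there is no arc `u → v` in `S3` (otherwise `embed_double` with `a = 3`, `b = 1`; `Root.of_res`, `rev_res`;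
`Root r 1 t v` because `v` has `t` out-neighbours), so `ColOn r S3 1`. For `W2 = S1 \ S3`: `¬ UpComb (res r W2) 2 t` (a root would be in `W2 ⊆ W`, `Root.mem`, `Root.of_res`, against `hW`), and
`¬ UpComb (rev (res r W2)) 3 t` (a root `v ∈ W2` would satisfy `Root (rev (res r S1)) 3 t v`: `res (res r S1) W2 = res r W2` and `Root.of_res`), so `main` for `res r W2` (`HO.res`) and
`colOn_of_res`. -/
theorem half (t : ℕ) (ht : 1 ≤ t) : ∃ C : ℕ, ∀ (V : Type u) [Finite V] (r lt : V → V → Prop)
    (G : SimpleGraph V), HO r lt → (∀ x y, G.Adj x y ↔ r x y ∨ r y x) →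
    IsEmpty (cat 4 t ↪g G) → ∀ W : Set V, (∀ v ∈ W, ¬ Root r 2 t v) → ColOn r W C := by
  classical
  obtain ⟨C, hC⟩ := main.{u} 3 t ht
  refine ⟨C + 1 + t, ?_⟩
  intro V _ r lt G h hG hcat W hW
  have : Fintype V := Fintype.ofFinite V
  set S1 : Set V := {v | v ∈ W ∧ t ≤ (Finset.univ.filter (fun w => w ∈ W ∧ r v w)).card} with hS1
  set S3 : Set V := {v | v ∈ S1 ∧ Root (rev (res r S1)) 3 t v} with hS3
  -- few out-neighbours
  have hA : ColOn r (W \ S1) t := by
    have := colOn_of_outdeg h (W \ S1) (t - 1) (fun v hv =>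
      ⟨Finset.univ.filter (fun w => w ∈ W ∧ r v w), by
        have h1 : ¬ t ≤ (Finset.univ.filter (fun w => w ∈ W ∧ r v w)).card :=
          fun hc => hv.2 ⟨hv.1, hc⟩
        omega, fun w hw hr => by
        simp only [Finset.mem_filter, Finset.mem_univ, true_and]
        exact ⟨hw.1, hr⟩⟩)
    rwa [Nat.sub_add_cancel ht] at this
  -- roots of in-combs
  have hB : ColOn r S3 1 := by
    refine Red_colOn_one (fun u hu v hv hr => ?_)
    have hin : Root (rev r) 3 t u := by
      have h1 := hu.2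
      rw [rev_res] at h1
      exact Root.of_res ht h1
    have hout : Root r 1 t v := by
      obtain ⟨Z, hZ, hZc⟩ := Finset.exists_subset_card_eq hv.1.2
      refine ⟨fun _ => v, fun _ => Z, rfl, fun i hi => by omega, fun i _ => ⟨hZc, fun z hz => ?_⟩,
        fun i l hil hl => by omega⟩
      have := hZ hz
      simp only [Finset.mem_filter, Finset.mem_univ, true_and] at this
      exact this.2
    obtain ⟨e⟩ := embed_double h ht (by norm_num) (by norm_num) G hG hr hin hout
    exact hcat.false e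
  -- the rest
  have hD : ColOn r (S1 \ S3) C := by
    refine colOn_of_res (hC V (res r (S1 \ S3)) lt (HO.res h _) ?_ ?_)
    · intro hc
      obtain ⟨v, hv⟩ := exists_root hc
      have hm := Root.mem ht (by norm_num) hv
      exact hW v hm.1.1 (Root.of_res ht hv)
    · intro hc
      obtain ⟨v, hv⟩ := exists_root hc
      rw [rev_res] at hv
      have hm := Root.mem ht (by norm_num) hv
      apply hm.2
      refine ⟨hm.1, ?_⟩
      rw [rev_res]
      rw [← Red_res_res (rev r) (Set.sdiff_subset : S1 \ S3 ⊆ S1)] at hv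
      exact Root.of_res ht hv
  refine ((hD.union hB).union hA).mono (fun v hv => ?_) le_rfl
  by_cases h1 : v ∈ S1
  · by_cases h3 : v ∈ S3
    · exact Or.inl (Or.inr h3)
    · exact Or.inl (Or.inl ⟨h1, h3⟩)
  · exact Or.inr ⟨hv, h1⟩

/-- PROOF. `W1 = {v | ¬ Root r 2 t v}`, `W2 = {v | ¬ Root (rev r) 2 t v}` (`half` for `rev r`, `h.flip`, `ColOn.rev`), and in the rest there is no arc (`embed_double` with
`a = b = 2`). The bound is `C + C + 1`. -/
theorem cat_four (t : ℕ) (ht : 1 ≤ t) : ∃ C : ℕ, ∀ (V : Type u) [Finite V] (r lt : V → V → Prop)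
    (G : SimpleGraph V), HO r lt → (∀ x y, G.Adj x y ↔ r x y ∨ r y x) →
    IsEmpty (cat 4 t ↪g G) → ColOn r Set.univ C := by
  classical
  obtain ⟨C, hC⟩ := half.{u} t ht
  refine ⟨C + C + 1, ?_⟩
  intro V _ r lt G h hG hcat
  have h1 : ColOn r {v | ¬ Root r 2 t v} C := hC V r lt G h hG hcat _ (fun v hv => hv)
  have h2 : ColOn r {v | ¬ Root (rev r) 2 t v} C := by
    have := hC V (rev r) (rev lt) G h.flip (fun x y => by
      rw [hG x y]; exact or_comm) hcat {v | ¬ Root (rev r) 2 t v} (fun v hv => hv)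
    exact this.rev
  have h3 : ColOn r {v | Root r 2 t v ∧ Root (rev r) 2 t v} 1 := by
    refine Red_colOn_one (fun u hu v hv hr => ?_)
    obtain ⟨e⟩ := embed_double h ht (by norm_num) (by norm_num) G hG hr hu.2 hv.1
    exact hcat.false e
  refine ((h1.union h2).union h3).mono (fun v _ => ?_) le_rfl
  by_cases ha : Root r 2 t v
  · by_cases hb : Root (rev r) 2 t v
    · exact Or.inr ⟨ha, hb⟩
    · exact Or.inl (Or.inr hb)
  · exact Or.inl (Or.inl ha)

end Pool.Agent.Lib.MP_b0c2b5_co.C4
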