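import Pool.Agent.Lib.MP_b0c2b5_co.C4.Transfer

/-! A path of rich vertices gives an in-comb. -/

set_option autoImplicit false

namespace Pool.Agent.Lib.MP_b0c2b5_co.C4

open Finset LS
open scoped Classical

universe u

variable {V : Type u} [Fintype V] [DecidableEq V] {r lt : V → V → Prop} {ρ : ℝ} {m T : ℕ}

/-- Choice of the leaves, from the last vertex of the path down.

PROOF. Induction on `k`. For `k + 1 ≤ s` let `i = s - (k+1)` and take `Z` for `k`. The set
`far r ρ T (q i) (q (i+1))` has at least `K` elements (`hR`, `hq`). Remove the sets `bad r ρ (q l)` for `i < l < s` (at most `s` sets with at most `m` elements: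
`q l ∈ P r ρ T (q (l-1))`, so `Bg r T 1 (q l)`, `Bg.bad_le`) and the sets `bad r ρ y'` for `y' ∈ Z l`, `i < l < s` (at most `s * t` sets). At least `t` elements remain; let `Z i` be a set
of `t` of them (`Function.update Z i _`). -/
theorem exists_leaves (E : Env r lt ρ m T) {s t K : ℕ} (hK : (s + s * t) * m + t ≤ K) (q : ℕ → V)
    (hR : ∀ i < s, Rich r ρ T K (q i)) (hq : ∀ i < s, q (i + 1) ∈ P r ρ T (q i)) :
    ∀ k ≤ s, ∃ Z : ℕ → Finset V, ∀ i, s - k ≤ i → i < s → (Z i).card = t ∧
      ∀ y ∈ Z i, y ∈ far r ρ T (q i) (q (i + 1)) ∧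
        ∀ l, i < l → l < s → y ∉ bad r ρ (q l) ∧ ∀ y' ∈ Z l, y ∉ bad r ρ y' := by
  intro k
  induction k with
  | zero =>
    intro _
    exact ⟨fun _ => ∅, fun i h1 h2 => absurd h1 (by omega)⟩
  | succ k ih =>
    intro hk
    obtain ⟨Z, hZ⟩ := ih (by omega)
    set i0 : ℕ := s - (k + 1) with hi0
    have hi0s : i0 < s := by omega
    have hqP : ∀ l, i0 < l → l < s → (bad r ρ (q l)).card ≤ m := by
      intro l h1 h2
      have h3 := hq (l - 1) (by omega)
      rw [show l - 1 + 1 = l by omega] at h3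
      exact Bg.bad_le E (mem_P.1 h3).1
    set B : Finset V := (Finset.Ioo i0 s).biUnion
      (fun l => bad r ρ (q l) ∪ (Z l).biUnion (fun y' => bad r ρ y')) with hB
    have hBc : B.card ≤ (s + s * t) * m := by
      have h1 : B.card ≤ ∑ l ∈ Finset.Ioo i0 s, (m + t * m) := by
        refine card_biUnion_le.trans (Finset.sum_le_sum fun l hl => ?_)
        rw [Finset.mem_Ioo] at hl
        refine (card_union_le _ _).trans (add_le_add (hqP l hl.1 hl.2) ?_)
        obtain ⟨hc, hy⟩ := hZ l (by omega) hl.2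
        calc ((Z l).biUnion (fun y' => bad r ρ y')).card ≤ ∑ y' ∈ Z l, (bad r ρ y').card :=
              card_biUnion_le
          _ ≤ ∑ y' ∈ Z l, m := Finset.sum_le_sum fun y' hy' =>
              Bg.bad_le E (mem_P.1 (mem_far.1 (hy y' hy').1).1).1
          _ = t * m := by rw [Finset.sum_const, hc, smul_eq_mul]
      rw [Finset.sum_const, smul_eq_mul, Nat.card_Ioo] at h1
      calc B.card ≤ (s - i0 - 1) * (m + t * m) := h1
        _ ≤ s * (m + t * m) := Nat.mul_le_mul_right _ (by omega)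
        _ = (s + s * t) * m := by ring
    have hfar : K ≤ (far r ρ T (q i0) (q (i0 + 1))).card := (hR i0 hi0s).2 _ (hq i0 hi0s)
    have hcard : t ≤ (far r ρ T (q i0) (q (i0 + 1)) \ B).card := by
      have h1 := Finset.le_card_sdiff B (far r ρ T (q i0) (q (i0 + 1)))
      omega
    obtain ⟨Y, hY, hYc⟩ := Finset.exists_subset_card_eq hcard
    refine ⟨Function.update Z i0 Y, fun i h1 h2 => ?_⟩
    by_cases hi : i = i0
    · rw [hi, Function.update_self]
      refine ⟨hYc, fun y hy => ?_⟩
      have hy1 := hY hy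
      rw [mem_sdiff] at hy1
      refine ⟨hy1.1, fun l hl1 hl2 => ?_⟩
      have hne : l ≠ i0 := by omega
      rw [Function.update_of_ne hne]
      have hl : l ∈ Finset.Ioo i0 s := Finset.mem_Ioo.2 ⟨hl1, hl2⟩
      constructor
      · intro hb
        exact hy1.2 (mem_biUnion.2 ⟨l, hl, mem_union_left _ hb⟩)
      · intro y' hy' hb
        exact hy1.2 (mem_biUnion.2 ⟨l, hl, mem_union_right _ (mem_biUnion.2 ⟨y', hy', hb⟩)⟩)
    · rw [Function.update_of_ne hi]
      obtain ⟨hc, hy⟩ := hZ i (by omega) h2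
      refine ⟨hc, fun y hyi => ⟨(hy y hyi).1, fun l hl1 hl2 => ?_⟩⟩
      have hne : l ≠ i0 := by omega
      rw [Function.update_of_ne hne]
      exact (hy y hyi).2 l hl1 hl2

/-- The comb. The path is `q (s-1) → ... → q 1 → q 0`.

PROOF. Take `Z` from `exists_leaves` with `k = s`. The comb of `rev r` has the spine `q 0, q 1, ..., q (s-1)` and the leaves `Z i` (elements of
`P r ρ T (q i)`, so `Good r ρ y (q i)`). Let `i < l < s`, `z ∈ Z i`.
(1) `¬ r (q l) z`: otherwise `Good r ρ (q l) z` (`good_of_not_bad`). If `l = i + 1`: `r (q l) (q i)`, `lt (q l) z`, `lt z (q i)` against `sf`. If `l = i + 2`: `z` and `q (l-1) = q (i+1)` are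
siblings (`sib_nr`, `7 ρ ≤ 10 ρ`), against `z ∈ far r ρ T (q i) (q (i+1))`. If `l ≥ i + 3`: `conflict` with `c = q l`, `z`, `w = q (l-1)`, `x = q (l-2)`, `y = q i` (`lt (q (l-2)) (q i)`: the path).
(2) `¬ r z' z` for `z' ∈ Z l`: otherwise `Good r ρ z' z`, and `Good r ρ z' (q l)`. If `l = i + 1`: siblings, against `z ∈ far`. If `l ≥ i + 2`: `conflict` with
`c = z'`, `z`, `w = q l`, `x = q (l-1)`, `y = q i` (`lt (q (l-1)) (q i)`). -/
theorem rich_path (E : Env r lt ρ m T) {s t K : ℕ} (hK : (s + s * t) * m + t ≤ K) (q : ℕ → V)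
    (hR : ∀ i < s, Rich r ρ T K (q i)) (hq : ∀ i < s, q (i + 1) ∈ P r ρ T (q i)) :
    UpComb (rev r) s t := by
  obtain ⟨Z, hZ⟩ := exists_leaves E hK q hR hq s le_rfl
  have hP : ∀ l, 1 ≤ l → l ≤ s → Bg r T 1 (q l) ∧ Good r ρ (q l) (q (l - 1)) := by
    intro l h1 h2
    have h3 := hq (l - 1) (by omega)
    rw [show l - 1 + 1 = l by omega] at h3
    exact mem_P.1 h3
  have hlt : ∀ d a, a + d + 1 ≤ s → lt (q (a + d + 1)) (q a) := by
    intro d
    induction d with
    | zero =>
      intro a ha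
      have h1 := (hP (a + 0 + 1) (by omega) ha).2.1
      exact E.ho.arc _ _ h1
    | succ d ih =>
      intro a ha
      have h1 := ih a (by omega)
      have h2 := (hP (a + (d + 1) + 1) (by omega) ha).2.1
      have h3 := E.ho.arc _ _ h2
      exact E.ho.trans _ _ _ h3 h1
  have hlt' : ∀ a b, a < b → b ≤ s → lt (q b) (q a) := by
    intro a b h1 h2
    have h3 := hlt (b - a - 1) a (by omega)
    rwa [show a + (b - a - 1) + 1 = b by omega] at h3
  refine ⟨q, Z, ?_, ?_, ?_⟩
  · intro i hi
    exact (hP (i + 1) (by omega) (by omega)).2.1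
  · intro i hi
    obtain ⟨hc, hy⟩ := hZ i (by omega) hi
    exact ⟨hc, fun z hz => (mem_P.1 (mem_far.1 (hy z hz).1).1).2.1⟩
  · intro i l hil hls z hz
    obtain ⟨-, hy⟩ := hZ i (by omega) (by omega)
    obtain ⟨hzf, hzb⟩ := hy z hz
    obtain ⟨hzP, hznr⟩ := mem_far.1 hzf
    obtain ⟨hzB, hzG⟩ := mem_P.1 hzP
    obtain ⟨hb1, hb2⟩ := hzb l hil hls
    have h710 : 7 * ρ ≤ 10 * ρ := by linarith [E.rpos]
    constructor
    · intro hr
      have hr' : r (q l) z := hr
      have hg := good_of_not_bad hr' hb1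
      by_cases h1 : l = i + 1
      · subst h1
        exact E.ho.sf (q (i + 1)) (q i) z (hP (i + 1) (by omega) (by omega)).2.1
          (E.ho.arc _ _ hr') (E.ho.arc _ _ hzG.1)
      · by_cases h2 : l = i + 2
        · subst h2
          have h3 := (hP (i + 2) (by omega) (by omega)).2
          exact hznr ((sib_nr E hg h3).mono h710)
        · have h3 := hP l (by omega) (by omega)
          have h4 := hP (l - 1) (by omega) (by omega)
          exact conflict E hg h3.2 hzG h4.2 hzB h4.1 (hlt' i (l - 1 - 1) (by omega) (by omega))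
    · intro z' hz' hr
      have hr' : r z' z := hr
      have hg := good_of_not_bad hr' (hb2 z' hz')
      obtain ⟨-, hy'⟩ := hZ l (by omega) hls
      have hg' := (mem_P.1 (mem_far.1 (hy' z' hz').1).1).2
      by_cases h1 : l = i + 1
      · subst h1
        exact hznr ((sib_nr E hg hg').mono h710)
      · have h4 := hP l (by omega) (by omega)
        exact conflict E hg hg' hzG h4.2 hzB h4.1 (hlt' i (l - 1) (by omega) (by omega))

end Pool.Agent.Lib.MP_b0c2b5_co.C4
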