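import Pool.Agent.Lib.MP_b0c2b5_co.C4.Transfer
import Pool.Agent.Lib.MP_b0c2b5_co.LS.RefineA

/-! The vertices with a small set `F j`, `j ≤ M`. -/

set_option autoImplicit false

namespace Pool.Agent.Lib.MP_b0c2b5_co.C4

open Finset LS
open scoped Classical

universe u

variable {V : Type u} [Fintype V] [DecidableEq V] {r lt : V → V → Prop} {ρ : ℝ} {m T : ℕ}

/-- a set on which every vertex has few out-neighbours.

PROOF. `outdeg_col` (`LS/RefineA.lean`) for the relation `x ∈ W ∧ y ∈ W ∧ r x y`. -/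
theorem colOn_of_outdeg (h : HO r lt) (W : Set V) (t : ℕ)
    (hd : ∀ v ∈ W, ∃ S : Finset V, S.card ≤ t ∧ ∀ w ∈ W, r v w → w ∈ S) : ColOn r W (t + 1) := by
  obtain ⟨f, hf, hf2⟩ := outdeg_col h (fun x y => x ∈ W ∧ y ∈ W ∧ r x y)
    (fun x y hxy => h.arc x y hxy.2.2) t (by
      intro v
      by_cases hv : v ∈ W
      · obtain ⟨S, hS, hS2⟩ := hd v hv
        exact ⟨S, hS, fun w hw => hS2 w hw.2.1 hw.2.2⟩
      · exact ⟨∅, by simp, fun w hw => absurd hw.1 hv⟩)
  exact ⟨f, fun v _ => hf v, fun x hx y hy hxy => hf2 x y ⟨hx, hy, hxy⟩⟩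

/-- One class.

PROOF. `j = 0`: every vertex of the class has less than `thr T M 0` children: `colOn_of_outdeg` with `t = thr T M 0 - 1`, `S = N r v`.
`j = 1`: there is no arc `u → v` in the class: `|N r v| ≤ |F r 1 u| < thr T M 1 ≤ thr T M 0` (`star_max`) against `hi 0` for `v`.
`j ≥ 2`: `|F r 1 u| ≥ thr T M 1 ≥ T`, so `|bad r ρ u| ≤ m < thr T M 0`, and there is no good arc `u → v` in the class (`colOn_of_outdeg` with `t = m`, `S = bad r ρ u`, and `ColOn.mono`):
all `F r i u`, `i < j`, have at least `thr T M i ≥ 4 T` elements, so (`good_F`, `k = j - 2`) `|F r i v| ≥ (1 - 5 ρ) 4 T ≥ 2 T` for `i ≤ j - 2`, and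
`|F r (j-1) v| ≥ thr T M (j-1) ≥ 2 T` by the assumption on `v`; `transfer` for `star r u`, `v` (`(good_nr E hg).symm`), `k = j - 1` gives
`Nr (5 * ρ) (F r j u) (F r (j-1) v)`, so `|F r j u| ≥ (1 - 5 ρ) thr T M (j-1) ≥ thr T M j` (`thr T M (j-1) = 2 * thr T M j` for `j ≤ M`): contradiction. -/
theorem small_class (E : Env r lt ρ m T) {M j : ℕ} (hM : 1 ≤ M) (hj : j ≤ M) :
    ColOn r {u | (∀ i < j, thr T M i ≤ (F r i u).card) ∧ (F r j u).card < thr T M j}
      (thr T M 0) := by
  have hmT := E.mT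
  have hρ := E.rpos
  have hρ' := E.rle
  have hbase : ∀ i, 4 * T ≤ thr T M i := by
    intro i
    unfold thr
    have h1 : 1 ≤ 2 ^ (M - i) := Nat.one_le_two_pow
    have h2 : 2 ^ 1 ≤ 2 ^ M := Nat.pow_le_pow_right (by norm_num) hM
    calc 4 * T = 1 * (2 ^ 1 * (2 * T)) := by ring
      _ ≤ 2 ^ (M - i) * (2 ^ M * (2 * T)) := Nat.mul_le_mul h1 (Nat.mul_le_mul_right _ h2)
  have hb0 := hbase 0
  have hthr : thr T M 0 - 1 + 1 = thr T M 0 := by omega
  match j, hj with
  | 0, _ =>
    refine (colOn_of_outdeg E.ho _ (thr T M 0 - 1) ?_).mono (fun _ h => h) hthr.le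
    intro v hv
    refine ⟨N r v, ?_, fun w _ hw => mem_N.2 hw⟩
    have h1 : (N r v).card < thr T M 0 := hv.2
    omega
  | 1, hj =>
    refine (colOn_of_outdeg E.ho _ (thr T M 0 - 1) ?_).mono (fun _ h => h) hthr.le
    intro u hu
    refine ⟨∅, by simp, fun v hv huv => ?_⟩
    exfalso
    have h1 : (N r (star r u)).card < thr T M 1 := hu.2
    have h2 : thr T M 0 ≤ (N r v).card := hv.1 0 (by norm_num)
    have h3 := star_max huv
    have h4 : thr T M 1 ≤ thr T M 0 := by
      unfold thr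
      exact Nat.mul_le_mul_right _ (Nat.pow_le_pow_right (by norm_num) (by omega))
    omega
  | j' + 2, hj =>
    have hcol : ColOn r {u | (∀ i < j' + 2, thr T M i ≤ (F r i u).card) ∧
        (F r (j' + 2) u).card < thr T M (j' + 2)} (m + 1) := by
      refine colOn_of_outdeg E.ho _ _ ?_
      intro u hu
      have hu1 : 4 * T ≤ (N r (star r u)).card := (hbase 1).trans (hu.1 1 (by omega))
      refine ⟨bad r ρ u, E.bad_le u (by omega), fun v hv huv => ?_⟩
      by_contra hnb
      have hg : Good r ρ u v := good_of_not_bad huv hnb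
      have hT0 : (0 : ℝ) ≤ (T : ℝ) := Nat.cast_nonneg _
      have hgF := good_F E (k := j') hg (fun i _ hi => by
        have h1 := (hbase i).trans (hu.1 i (by omega))
        omega)
      have hvF : ∀ i, 1 ≤ i → i ≤ j' + 1 → 2 * T ≤ (F r i v).card := by
        intro i hi1 hi2
        rcases Nat.lt_or_ge j' i with h | h
        · have h1 := (hbase i).trans (hv.1 i (by omega))
          omega
        · have h1 := (hgF i h).card_ge
          have h2 : 4 * T ≤ (F r (i + 1) u).card := (hbase (i + 1)).trans (hu.1 (i + 1) (by omega))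
          have h2' : 4 * (T : ℝ) ≤ ((F r (i + 1) u).card : ℝ) := by exact_mod_cast h2
          have h3 : (1 - 5 * ρ) * (4 * (T : ℝ)) ≤ (F r i v).card :=
            (mul_le_mul_of_nonneg_left h2' (by linarith)).trans h1
          have h4 : 2 * (T : ℝ) ≤ (F r i v).card := by nlinarith
          exact_mod_cast h4
      have hnr : Nr (1 / 4) (N r (star r u)) (N r v) :=
        (good_nr E hg).symm.mono (by linarith)
      have htr := transfer E (j' + 1) (star r u) v hnr (by omega) hvF (j' + 1) (by omega) le_rfl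
      have h5 := htr.card_ge
      have h6 : thr T M (j' + 1) ≤ (F r (j' + 1) v).card := hv.1 (j' + 1) (by omega)
      have h7 : (F r (j' + 1) (star r u)).card < thr T M (j' + 2) := hu.2
      have h8 : thr T M (j' + 1) = 2 * thr T M (j' + 2) := by
        unfold thr
        have h9 : M - (j' + 1) = (M - (j' + 2)) + 1 := by omega
        rw [h9, pow_succ]
        ring
      have h6' : 2 * (thr T M (j' + 2) : ℝ) ≤ ((F r (j' + 1) v).card : ℝ) := by
        rw [h8] at h6
        exact_mod_cast h6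
      have h7' : ((F r (j' + 1) (star r u)).card : ℝ) < (thr T M (j' + 2) : ℝ) := by
        exact_mod_cast h7
      have h10 : (1 - 5 * ρ) * (2 * (thr T M (j' + 2) : ℝ)) ≤ (F r (j' + 1) (star r u)).card :=
        (mul_le_mul_of_nonneg_left h6' (by linarith)).trans h5
      have h11 : (0 : ℝ) ≤ (thr T M (j' + 2) : ℝ) := Nat.cast_nonneg _
      nlinarith
    exact hcol.mono (fun _ h => h) (by omega)

/-- PROOF. `ColOn.classes` with `q v` = the least `j` with `(F r j v).card < thr T M j` (`Nat.find`) and `small_class`. -/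
theorem small_col (E : Env r lt ρ m T) {M : ℕ} (hM : 1 ≤ M) :
    ColOn r {u | ¬ ∀ j ≤ M, thr T M j ≤ (F r j u).card} ((M + 1) * thr T M 0) := by
  have hex : ∀ v ∈ {u | ¬ ∀ j ≤ M, thr T M j ≤ (F r j u).card},
      ∃ j, j ≤ M ∧ (F r j v).card < thr T M j := by
    intro v hv
    by_contra hc
    exact hv fun j hj => not_lt.1 fun hlt => hc ⟨j, hj, hlt⟩
  refine ColOn.classes (fun v => sInf {j | (F r j v).card < thr T M j}) ?_ ?_
  · intro v hv
    obtain ⟨j, hj, hlt⟩ := hex v hv
    have h1 : sInf {j | (F r j v).card < thr T M j} ≤ j := Nat.sInf_le hlt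
    change sInf {j | (F r j v).card < thr T M j} < M + 1
    omega
  · intro i hi
    refine (small_class E hM (Nat.lt_succ_iff.1 hi)).mono ?_ le_rfl
    rintro v ⟨hv, hq⟩
    obtain ⟨j, hj, hlt⟩ := hex v hv
    have hq' : sInf {j | (F r j v).card < thr T M j} = i := hq
    have hmem : sInf {j | (F r j v).card < thr T M j} ∈ {j | (F r j v).card < thr T M j} :=
      Nat.sInf_mem ⟨j, hlt⟩
    rw [hq'] at hmem
    refine ⟨fun l hl => ?_, hmem⟩
    have h2 : l ∉ {j | (F r j v).card < thr T M j} :=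
      Nat.notMem_of_lt_sInf (by rw [hq']; exact hl)
    exact not_lt.1 h2

/-- PROOF. `thr T M j ≥ 2 ^ M * (2 * T)`. -/
theorem Bg_of_thr {M : ℕ} {u : V} (h : ∀ j ≤ M, thr T M j ≤ (F r j u).card) : Bg r T M u := by
  intro j hj
  refine le_trans ?_ (h j hj)
  unfold thr
  exact Nat.le_mul_of_pos_left _ (Nat.two_pow_pos _)

end Pool.Agent.Lib.MP_b0c2b5_co.C4
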