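import Pool.Agent.Lib.MP_b0c2b5_co.C4.Near

/-! Vertices with nearly the same children have nearly the same sets `F j`. -/

set_option autoImplicit false

namespace Pool.Agent.Lib.MP_b0c2b5_co.C4

open Finset LS
open scoped Classical

universe u

variable {V : Type u} [Fintype V] [DecidableEq V] {r lt : V → V → Prop} {ρ : ℝ} {m T : ℕ}

theorem good_nr (E : Env r lt ρ m T) {u v : V} (h : Good r ρ u v) :
    Nr (3 * ρ) (N r v) (N r (star r u)) := nr_of_le E.rpos.le E.rle h.2

/-- siblings -/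
theorem sib_nr (E : Env r lt ρ m T) {u v w : V} (hv : Good r ρ u v) (hw : Good r ρ u w) :
    Nr (7 * ρ) (N r v) (N r w) := by
  refine (good_nr E hv).trans (good_nr E hw).symm ?_ ?_ ?_
  · linarith [E.rpos]
  · linarith [E.rpos]
  · nlinarith [E.rpos, E.rle]

/-- There is a common good child.

PROOF. `|bad r ρ v'| ≤ m` and `|N r v ∩ N r v'| ≥ |N r v| - dd ≥ (3/4) |N r v| ≥ (3/4) T > 2 m`, so there is `z` in both, not in `bad r ρ v'`:
`Good r ρ v' z`. Hence `|N r z| ≥ (1 - 2 ρ) |F r 1 v'| ≥ T`, and `|N r (star r v)| ≥ |N r z| ≥ T` (`star_max`), so `|bad r ρ v| ≤ m` too, and there is `z` in both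
sets outside of `bad r ρ v ∪ bad r ρ v'`. -/
theorem exists_common (E : Env r lt ρ m T) {v v' : V} (h : Nr (1 / 4) (N r v) (N r v'))
    (h1 : T ≤ (N r v).card) (h2 : 2 * T ≤ (F r 1 v').card) :
    ∃ z, Good r ρ v z ∧ Good r ρ v' z := by
  have hρ := E.rpos
  have hρ' := E.rle
  have hT : (1000 * ((m : ℝ) + 1)) ≤ T := by exact_mod_cast E.mT
  have hm : (0 : ℝ) ≤ m := Nat.cast_nonneg _
  have h1' : (T : ℝ) ≤ (N r v).card := by exact_mod_cast h1
  have h2' : (2 * T : ℝ) ≤ (F r 1 v').card := by exact_mod_cast h2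
  have hF : F r 1 v' = N r (star r v') := rfl
  rw [hF] at h2 h2'
  have hb' : (bad r ρ v').card ≤ m := E.bad_le v' (by omega)
  have hb'' : ((bad r ρ v').card : ℝ) ≤ m := by exact_mod_cast hb'
  have hsd := card_sdiff_le_dd (N r v) (N r v')
  have hdd := h.1
  -- the common children
  have key : ∀ B : Finset V, (B.card : ℝ) ≤ 2 * m → ∃ z, r v z ∧ r v' z ∧ z ∉ B := by
    intro B hB
    by_contra hc
    push Not at hc
    have hsub : N r v ⊆ (N r v \ N r v') ∪ B := by
      intro z hz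
      by_cases hz' : z ∈ N r v'
      · exact mem_union_right _ (hc z (mem_N.1 hz) (mem_N.1 hz'))
      · exact mem_union_left _ (mem_sdiff.2 ⟨hz, hz'⟩)
    have hle := (card_le_card hsub).trans (card_union_le _ _)
    have hle' : ((N r v).card : ℝ) ≤ (N r v \ N r v').card + B.card := by exact_mod_cast hle
    linarith
  obtain ⟨z, hz1, hz2, hz3⟩ := key (bad r ρ v') (by linarith)
  have hgz := good_of_not_bad hz2 hz3
  have hz4 := (good_nr E hgz).card_ge
  have hz5 : (T : ℝ) ≤ (N r z).card := by nlinarith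
  have hz6 : T ≤ (N r z).card := by exact_mod_cast hz5
  have hb : (bad r ρ v).card ≤ m := E.bad_le v (hz6.trans (star_max hz1))
  have hbr : ((bad r ρ v).card : ℝ) ≤ m := by exact_mod_cast hb
  have hbu : ((bad r ρ v ∪ bad r ρ v').card : ℝ) ≤ 2 * m := by
    have := card_union_le (bad r ρ v) (bad r ρ v')
    have h3 : ((bad r ρ v ∪ bad r ρ v').card : ℝ) ≤ (bad r ρ v).card + (bad r ρ v').card := by
      exact_mod_cast this
    linarith
  obtain ⟨y, hy1, hy2, hy3⟩ := key _ hbu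
  rw [mem_union, not_or] at hy3
  exact ⟨y, good_of_not_bad hy1 hy3.1, good_of_not_bad hy2 hy3.2⟩

/-- PROOF. `exists_common`, `dd_triangle`, `nr_of_le_add`. -/
theorem nr_one (E : Env r lt ρ m T) {v v' : V} (h : Nr (1 / 4) (N r v) (N r v'))
    (h1 : T ≤ (N r v).card) (h2 : 2 * T ≤ (F r 1 v').card) :
    Nr (5 * ρ) (F r 1 v) (F r 1 v') := by
  obtain ⟨z, hz, hz'⟩ := exists_common E h h1 h2
  have h3 := hz.2
  have h4 := hz'.2
  have h5 := dd_triangle (N r (star r v)) (N r z) (N r (star r v'))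
  rw [dd_comm (N r (star r v)) (N r z)] at h5
  exact nr_of_le_add (A := N r (star r v)) (B := N r (star r v')) E.rpos.le E.rle (by linarith)

/-- The transfer lemma (no accumulation of errors).

PROOF. Induction on `k` for all `v`, `v'`. `j = 1`: `nr_one`. `j ≥ 2`: the induction hypothesis for `star r v`, `star r v'`, `k - 1`, `j - 1`:
`F r j v = F r (j - 1) (star r v)` by definition, `Nr (5 * ρ) (N r (star r v)) (N r (star r v'))` is `nr_one`, `5 ρ ≤ 1 / 4`, and
`|N r (star r v)| ≥ (1 - 5 ρ) 2 T ≥ T` by `Nr.card_ge`. -/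
theorem transfer (E : Env r lt ρ m T) (k : ℕ) : ∀ v v' : V, Nr (1 / 4) (N r v) (N r v') →
    T ≤ (N r v).card → (∀ j, 1 ≤ j → j ≤ k → 2 * T ≤ (F r j v').card) →
    ∀ j, 1 ≤ j → j ≤ k → Nr (5 * ρ) (F r j v) (F r j v') := by
  have hρ := E.rpos
  have hρ' := E.rle
  induction k with
  | zero =>
    intro v v' _ _ _ j h1 h2
    omega
  | succ k ih =>
    intro v v' hn h1 h2 j hj1 hjk
    have hone := nr_one E hn h1 (h2 1 le_rfl (by omega))
    rcases Nat.eq_or_lt_of_le hj1 with hj | hj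
    · rw [← hj]
      exact hone
    · obtain ⟨i, rfl⟩ : ∃ i, j = i + 1 := ⟨j - 1, by omega⟩
      refine ih (star r v) (star r v') (hone.mono (by linarith)) ?_ ?_ i (by omega) (by omega)
      · have h3 := hone.card_ge
        have h4 : (2 * T : ℝ) ≤ (F r 1 v').card := by exact_mod_cast h2 1 le_rfl (by omega)
        have hT : (0 : ℝ) ≤ T := Nat.cast_nonneg _
        have h5 : (T : ℝ) ≤ (F r 1 v).card := by nlinarith
        exact_mod_cast h5
      · intro l hl1 hlk
        exact h2 (l + 1) (by omega) (by omega)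

/-- Good arcs shift the sets `F j`.

PROOF. `j = 0`: `good_nr`. `j ≥ 1`: `transfer` for `v`, `star r u` (`F r j (star r u) = F r (j+1) u`); `|N r v| ≥ (1 - 3 ρ) 2 T ≥ T` by `Nr.card_ge`. -/
theorem good_F (E : Env r lt ρ m T) {k : ℕ} {u v : V} (hg : Good r ρ u v)
    (hF : ∀ j, 1 ≤ j → j ≤ k + 1 → 2 * T ≤ (F r j u).card) :
    ∀ j ≤ k, Nr (5 * ρ) (F r j v) (F r (j + 1) u) := by
  have hρ := E.rpos
  have hρ' := E.rle
  intro j hj
  have h0 := good_nr E hg
  rcases Nat.eq_zero_or_pos j with hj0 | hj0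
  · subst hj0
    exact h0.mono (by linarith)
  · refine transfer E k v (star r u) (h0.mono (by linarith)) ?_ ?_ j hj0 hj
    · have h3 := h0.card_ge
      have h4 : (2 * T : ℝ) ≤ (N r (star r u)).card := by
        exact_mod_cast hF 1 le_rfl (by omega)
      have hT : (0 : ℝ) ≤ T := Nat.cast_nonneg _
      have h5 : (T : ℝ) ≤ (N r v).card := by nlinarith
      exact_mod_cast h5
    · intro l hl1 hlk
      exact hF (l + 1) (by omega) (by omega)

/-- PROOF. `good_F` with `k = i`, `Nr.card_ge`, `(1 - 5 ρ) 2 ≥ 1`. -/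
theorem Bg.step (E : Env r lt ρ m T) {i : ℕ} {u v : V} (h : Bg r T (i + 1) u)
    (hg : Good r ρ u v) : Bg r T i v := by
  have hρ := E.rpos
  have hρ' := E.rle
  intro j hj
  have hpow : 1 ≤ 2 ^ (i + 1) := Nat.one_le_two_pow
  have h1 := good_F E hg (k := i) (fun l _ hl => le_trans (by nlinarith) (h l hl)) j hj
  have h2 := h1.card_ge
  have h3 := h (j + 1) (by omega)
  have h4 : ((2 ^ (i + 1) * (2 * T) : ℕ) : ℝ) ≤ (F r (j + 1) u).card := by exact_mod_cast h3
  have h5 : ((2 ^ (i + 1) * (2 * T) : ℕ) : ℝ) = 2 * ((2 ^ i * (2 * T) : ℕ) : ℝ) := by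
    push_cast
    ring
  have h6 : (0 : ℝ) ≤ ((2 ^ i * (2 * T) : ℕ) : ℝ) := Nat.cast_nonneg _
  rw [h5] at h4
  have h7 : ((2 ^ i * (2 * T) : ℕ) : ℝ) ≤ (F r j v).card := by nlinarith
  exact_mod_cast h7

/-- PROOF. `Bg r T 1 u` gives `T ≤ |F r 1 u| = |N r (star r u)|`. -/
theorem Bg.bad_le (E : Env r lt ρ m T) {u : V} (h : Bg r T 1 u) : (bad r ρ u).card ≤ m := by
  have h1 := h 1 le_rfl
  have h2 : F r 1 u = N r (star r u) := rfl
  rw [h2] at h1
  exact E.bad_le u (by omega)

/-- The children of the two ends of a relation `lt` are different.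

PROOF. `r x w`, `lt x y`, `lt y w` (from `r y w`) against `sf`. -/
theorem disjoint_N (E : Env r lt ρ m T) {x y : V} (h : lt x y) : Disjoint (N r x) (N r y) := by
  rw [Finset.disjoint_left]
  intro w hw hw'
  exact E.ho.sf x w y (mem_N.1 hw) h (E.ho.arc _ _ (mem_N.1 hw'))

/-- PROOF. `sib_nr` and `nr_one`: `Nr (5 * ρ) (F r 1 z) (F r 1 w)`; with `good_nr` for `z → y` and `w → x`: `Nr (1 / 2) (N r x) (N r y)`; but these sets are
disjoint (`disjoint_N`) and `N r y` is not empty (`Nr.card_ge`). -/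
theorem conflict (E : Env r lt ρ m T) {c z w x y : V} (h1 : Good r ρ c z) (h2 : Good r ρ c w)
    (h3 : Good r ρ z y) (h4 : Good r ρ w x) (hz : Bg r T 1 z) (hw : Bg r T 1 w) (h : lt x y) :
    False := by
  have hρ := E.rpos
  have hρ' := E.rle
  have a1 := sib_nr E h1 h2
  have a2 := hz 0 (by omega)
  have a3 := hw 1 (by omega)
  have a2' : F r 0 z = N r z := rfl
  rw [a2'] at a2
  have a4 := nr_one E (a1.mono (by linarith)) (by omega) (by omega)
  have a5 := good_nr E h3
  have a6 := good_nr E h4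
  have a7 : Nr (1 / 10) (N r y) (F r 1 w) := a5.trans a4 (by linarith) (by linarith) (by nlinarith)
  have a8 : Nr (1 / 2) (N r x) (N r y) := by
    refine a6.trans a7.symm (by linarith) (by norm_num) ?_
    linarith
  refine not_nr_of_disjoint (disjoint_N E h).symm ?_ (by norm_num : (1 / 2 : ℝ) < 1) a8.symm
  rw [← card_pos]
  have a9 := a5.card_ge
  have a10 := hz 1 le_rfl
  have a11 : F r 1 z = N r (star r z) := rfl
  rw [a11] at a10
  have a12 : ((2 ^ 1 * (2 * T) : ℕ) : ℝ) ≤ (N r (star r z)).card := by exact_mod_cast a10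
  push_cast at a12
  have hT : (1000 * ((m : ℝ) + 1)) ≤ T := by exact_mod_cast E.mT
  have hm : (0 : ℝ) ≤ m := Nat.cast_nonneg _
  have a13 : (0 : ℝ) < (N r y).card := by nlinarith
  exact_mod_cast a13

end Pool.Agent.Lib.MP_b0c2b5_co.C4
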